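import Pool.Agent.Lib.MP_86b854_co.Interface

set_option autoImplicit false

/-!
# MP_86b854_co : elementary facts on faces, corners and boundaries
-/

namespace C7

open PLM T72 Finset Equiv

namespace Bas

variable {V : Type} [Fintype V] [DecidableEq V] {G : SimpleGraph V} [DecidableRel G.Adj]
  {M : CMap G.Dart V}

omit [Fintype V] [DecidableEq V] [DecidableRel G.Adj] in
theorem fc_eq_iff (d e : G.Dart) : fc M d = fc M e ↔ M.φ.SameCycle d e :=
  Quotient.eq

omit [Fintype V] [DecidableEq V] [DecidableRel G.Adj] in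
theorem fc_phi (d : G.Dart) : fc M (M.φ d) = fc M d :=
  (fc_eq_iff _ _).2 (Perm.sameCycle_apply_left.2 (Perm.SameCycle.refl _ _))

omit [Fintype V] [DecidableEq V] [DecidableRel G.Adj] in
theorem exists_fc (f : Fc M) : ∃ d, fc M d = f := Quotient.exists_rep f

theorem sig_fst (hM : PlaneMap M) (d : G.Dart) : (M.σ d).fst = d.fst := by
  rw [← hM.1, ← hM.1]
  exact (M.hv _ _).2 (Perm.sameCycle_apply_left.2 (Perm.SameCycle.refl _ _))

theorem phi_eq (hM : PlaneMap M) (d : G.Dart) : M.φ d = M.σ d.symm := by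
  rw [M.φ_apply, hM.2.1]

theorem phi_fst (hM : PlaneMap M) (d : G.Dart) : (M.φ d).fst = d.snd := by
  rw [phi_eq hM, sig_fst hM]
  rfl

theorem fc_symm (hM : PlaneMap M) (d : G.Dart) : fc M d.symm = fc M (M.σ d) := by
  rw [← fc_phi d.symm, phi_eq hM, SimpleGraph.Dart.symm_symm]

theorem mem_inV {R : Finset (Fc M)} {v : V} :
    v ∈ inV M R ↔ ∀ d : G.Dart, d.fst = v → fc M d ∈ R := by
  simp [inV]

theorem mem_bd {R : Finset (Fc M)} {d : G.Dart} :
    d ∈ bd M R ↔ fc M d ∈ R ∧ fc M d.symm ∉ R := by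
  simp [bd]

theorem notin_fst {R : Finset (Fc M)} {d : G.Dart} (h : fc M d ∉ R) : d.fst ∉ inV M R :=
  fun h1 => h (mem_inV.1 h1 d rfl)

theorem notin_snd (hM : PlaneMap M) {R : Finset (Fc M)} {d : G.Dart} (h : fc M d ∉ R) :
    d.snd ∉ inV M R := by
  intro h1
  apply h
  rw [← fc_phi d]
  exact mem_inV.1 h1 _ (phi_fst hM d)

theorem notin_symm_fst (hM : PlaneMap M) {R : Finset (Fc M)} {d : G.Dart}
    (h : fc M d.symm ∉ R) : d.fst ∉ inV M R := notin_snd hM h

theorem notin_symm_snd {R : Finset (Fc M)} {d : G.Dart} (h : fc M d.symm ∉ R) :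
    d.snd ∉ inV M R := notin_fst h

/-- A dart with an end in the interior has both sides in the region. -/
theorem both_of_fst (hM : PlaneMap M) {R : Finset (Fc M)} {d : G.Dart} (h : d.fst ∈ inV M R) :
    fc M d ∈ R ∧ fc M d.symm ∈ R := by
  constructor
  · by_contra h1
    exact notin_fst h1 h
  · by_contra h1
    exact notin_symm_fst hM h1 h

theorem both_of_snd (hM : PlaneMap M) {R : Finset (Fc M)} {d : G.Dart} (h : d.snd ∈ inV M R) :
    fc M d ∈ R ∧ fc M d.symm ∈ R := by
  constructor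
  · by_contra h1
    exact notin_snd hM h1 h
  · by_contra h1
    exact notin_symm_snd h1 h

/-- The boundary dart number `i`. -/
def bdart {k : ℕ} {w : ZMod k → V} (h : ∀ i, G.Adj (w i) (w (i + 1))) (i : ZMod k) : G.Dart :=
  ⟨(w i, w (i + 1)), h i⟩

theorem bdart_mem {R : Finset (Fc M)} {k : ℕ} {w : ZMod k → V} (h : Bd M R k w) (i : ZMod k) :
    bdart h.2.1 i ∈ bd M R := (h.2.2 _).2 ⟨i, rfl, rfl⟩

theorem bd_card {R : Finset (Fc M)} {k : ℕ} {w : ZMod k → V} (hk : k ≠ 0) (h : Bd M R k w) :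
    (bd M R).card = k := by
  have : NeZero k := ⟨hk⟩
  have h1 : bd M R = univ.image (bdart h.2.1) := by
    ext d
    rw [h.2.2, mem_image]
    constructor
    · rintro ⟨i, h1, h2⟩
      exact ⟨i, mem_univ _, SimpleGraph.Dart.ext _ _ (Prod.ext h1.symm h2.symm)⟩
    · rintro ⟨i, -, rfl⟩
      exact ⟨i, rfl, rfl⟩
  rw [h1, card_image_of_injective, card_univ, ZMod.card]
  intro i j hij
  exact h.1 (congrArg (fun d : G.Dart => d.fst) hij)

/-- Induction around a cycle. -/
theorem cyc_iff {k : ℕ} (hk : k ≠ 0) {P : ZMod k → Prop} (h : ∀ i, P i ↔ P (i + 1))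
    (i j : ZMod k) : P i ↔ P j := by
  have : NeZero k := ⟨hk⟩
  have h1 : ∀ n : ℕ, P 0 ↔ P (n : ZMod k) := by
    intro n
    induction n with
    | zero => rw [Nat.cast_zero]
    | succ n ih =>
      rw [ih, h]
      push_cast
      rfl
  have h2 : ∀ i : ZMod k, P 0 ↔ P i := by
    intro i
    have h3 := h1 i.val
    rwa [ZMod.natCast_zmod_val] at h3
  rw [← h2 i, h2 j]

omit [Fintype V] [DecidableEq V] [DecidableRel G.Adj] in
/-- In a connected graph a set closed under adjacency is everything or empty. -/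
theorem conn_closed (hG : G.Connected) (B : Set V) (h : ∀ u v, G.Adj u v → u ∈ B → v ∈ B)
    (u v : V) (hu : u ∈ B) : v ∈ B := by
  obtain ⟨p⟩ := hG.preconnected u v
  induction p with
  | nil => exact hu
  | cons h1 _ ih => exact ih (h _ _ h1 hu)

/-- Counting the classes of a setoid by a complete invariant. -/
theorem card_quot {A B : Type} [Fintype B] (s : Setoid A) (q : A → B)
    (hq : Function.Surjective q) (h : ∀ a b, s.r a b ↔ q a = q b) :
    Nat.card (Quotient s) = Fintype.card B := by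
  rw [← Nat.card_eq_fintype_card]
  refine Nat.card_congr (Equiv.ofBijective
    (Quotient.lift q fun a b hab => (h a b).1 hab) ⟨?_, ?_⟩)
  · intro x y hxy
    induction x using Quotient.inductionOn with
    | h a =>
      induction y using Quotient.inductionOn with
      | h b => exact Quotient.sound ((h a b).2 hxy)
  · intro b
    obtain ⟨a, ha⟩ := hq b
    exact ⟨Quotient.mk s a, ha⟩

omit [Fintype V] [DecidableEq V] [DecidableRel G.Adj] in
/-- A set closed under `φ` is a union of faces. -/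
theorem mem_of_fc {S : Set G.Dart} (hS : ∀ x, x ∈ S ↔ M.φ x ∈ S) {a b : G.Dart}
    (h : fc M a = fc M b) : a ∈ S ↔ b ∈ S := by
  obtain ⟨n, rfl⟩ := (fc_eq_iff _ _).1 h
  induction n with
  | zero => simp
  | succ n ih =>
    have h1 : (M.φ ^ ((n : ℤ) + 1)) a = M.φ ((M.φ ^ (n : ℤ)) a) := by
      rw [add_comm, zpow_add, zpow_one, Perm.mul_apply]
    rw [h1, ← hS]
    exact ih ((fc_eq_iff _ _).2 ⟨_, rfl⟩)
  | pred n ih =>
    have h1 : M.φ ((M.φ ^ (-(n : ℤ) - 1)) a) = (M.φ ^ (-(n : ℤ))) a := by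
      rw [← Perm.mul_apply, ← zpow_one_add]
      congr 2
      ring
    rw [hS ((M.φ ^ (-(n : ℤ) - 1)) a), h1]
    exact ih ((fc_eq_iff _ _).2 ⟨_, rfl⟩)

/-- the darts with both sides in the region -/
noncomputable def bo (M : CMap G.Dart V) (R : Finset (Fc M)) : Finset G.Dart :=
  univ.filter fun d => fc M d ∈ R ∧ fc M d.symm ∈ R

theorem mem_bo {R : Finset (Fc M)} {d : G.Dart} :
    d ∈ bo M R ↔ fc M d ∈ R ∧ fc M d.symm ∈ R := by
  simp [bo]

theorem sum_len (R : Finset (Fc M)) :
    ∑ f ∈ R, len M f = (univ.filter fun d : G.Dart => fc M d ∈ R).card := by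
  rw [card_eq_sum_card_fiberwise (f := fc M) (t := R)]
  · refine sum_congr rfl fun f hf => ?_
    unfold len
    congr 1
    ext d
    simp only [mem_filter, mem_univ, true_and]
    constructor
    · rintro rfl
      exact ⟨hf, rfl⟩
    · exact fun h => h.2
  · intro d hd
    simpa using hd

theorem sum_len_eq (R : Finset (Fc M)) :
    ∑ f ∈ R, len M f = (bo M R).card + (bd M R).card := by
  rw [sum_len, ← card_union_of_disjoint]
  · congr 1
    ext d
    simp only [mem_filter, mem_univ, true_and, mem_union, mem_bo, mem_bd]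
    tauto
  · rw [Finset.disjoint_left]
    intro d h1 h2
    exact (mem_bd.1 h2).2 (mem_bo.1 h1).2

end Bas

end C7
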