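import Pool.Agent.Lib.MP_86b854_co.Interface

set_option autoImplicit false

/-!
# MP_86b854_co : `S_Corner`
-/

namespace C7

open PLM T72 Finset Equiv

section Aux

variable {V : Type} [Fintype V] [DecidableEq V] {G : SimpleGraph V} [DecidableRel G.Adj]

/-- the rotation preserves the first vertex -/
lemma corner_fst {M : CMap G.Dart V} (hM : PlaneMap M) (d : G.Dart) : (M.σ d).fst = d.fst := by
  have h : M.vt (M.σ d) = M.vt d := by
    rw [M.hv]
    exact Perm.sameCycle_apply_left.2 (Perm.SameCycle.refl _ _)
  rw [hM.1, hM.1] at h
  exact h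

/-- the face permutation does not change the face -/
lemma corner_fc_phi (M : CMap G.Dart V) (d : G.Dart) : fc M (M.φ d) = fc M d := by
  unfold fc
  apply Quotient.sound
  exact Perm.sameCycle_apply_left.2 (Perm.SameCycle.refl _ _)

/-- the two sides of an edge, seen from a corner -/
lemma corner_fc_symm {M : CMap G.Dart V} (hM : PlaneMap M) (d : G.Dart) :
    fc M d.symm = fc M (M.σ d) := by
  rw [← corner_fc_phi M d.symm, CMap.φ_apply, hM.2.1, SimpleGraph.Dart.symm_symm]

end Aux

theorem tCorner : S_Corner := by
  intro V _ _ G _ M hM R v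
  classical
  constructor
  · -- the darts at `v`
    have hA : (bd M R).filter (fun d => d.fst = v) =
        (univ.filter fun d : G.Dart => d.fst = v ∧ fc M d ∈ R ∧ fc M (M.σ d) ∉ R) := by
      ext d
      simp only [bd, mem_filter, mem_univ, true_and, corner_fc_symm hM d]
      tauto
    have hB : ((bd M R).filter (fun d => d.snd = v)).card =
        (univ.filter fun d : G.Dart => d.fst = v ∧ fc M d ∉ R ∧ fc M (M.σ d) ∈ R).card := by
      refine card_bij' (fun d _ => d.symm) (fun d _ => d.symm) ?_ ?_ ?_ ?_
      · intro d hd
        simp only [bd, mem_filter, mem_univ, true_and] at hd ⊢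
        refine ⟨hd.2, hd.1.2, ?_⟩
        rw [← corner_fc_symm hM, SimpleGraph.Dart.symm_symm]
        exact hd.1.1
      · intro d hd
        simp only [bd, mem_filter, mem_univ, true_and] at hd ⊢
        refine ⟨⟨?_, ?_⟩, hd.1⟩
        · rw [corner_fc_symm hM]
          exact hd.2.2
        · rw [SimpleGraph.Dart.symm_symm]
          exact hd.2.1
      · intro d _
        exact SimpleGraph.Dart.symm_symm d
      · intro d _
        exact SimpleGraph.Dart.symm_symm d
    rw [hA, hB]
    have h1 : (univ.filter fun d : G.Dart => d.fst = v ∧ fc M d ∈ R).card =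
        (univ.filter fun d : G.Dart => d.fst = v ∧ fc M (M.σ d) ∈ R).card := by
      refine card_bij' (fun d _ => M.σ.symm d) (fun d _ => M.σ d) ?_ ?_ ?_ ?_
      · intro d hd
        simp only [mem_filter, mem_univ, true_and] at hd ⊢
        rw [Equiv.apply_symm_apply]
        refine ⟨?_, hd.2⟩
        rw [← corner_fst hM, Equiv.apply_symm_apply]
        exact hd.1
      · intro d hd
        simp only [mem_filter, mem_univ, true_and] at hd ⊢
        rw [corner_fst hM]
        exact hd
      · intro d _
        exact Equiv.apply_symm_apply _ _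
      · intro d _
        exact Equiv.symm_apply_apply _ _
    have h2 : (univ.filter fun d : G.Dart => d.fst = v ∧ fc M d ∈ R).card =
        (univ.filter fun d : G.Dart => d.fst = v ∧ fc M d ∈ R ∧ fc M (M.σ d) ∉ R).card +
        (univ.filter fun d : G.Dart => d.fst = v ∧ fc M d ∈ R ∧ fc M (M.σ d) ∈ R).card := by
      rw [← card_union_of_disjoint]
      · congr 1
        ext d
        simp only [mem_filter, mem_union, mem_univ, true_and]
        tauto
      · rw [disjoint_left]
        intro d hd hd'
        exact (mem_filter.1 hd).2.2.2 (mem_filter.1 hd').2.2.2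
    have h3 : (univ.filter fun d : G.Dart => d.fst = v ∧ fc M (M.σ d) ∈ R).card =
        (univ.filter fun d : G.Dart => d.fst = v ∧ fc M d ∉ R ∧ fc M (M.σ d) ∈ R).card +
        (univ.filter fun d : G.Dart => d.fst = v ∧ fc M d ∈ R ∧ fc M (M.σ d) ∈ R).card := by
      rw [← card_union_of_disjoint]
      · congr 1
        ext d
        simp only [mem_filter, mem_union, mem_univ, true_and]
        tauto
      · rw [disjoint_left]
        intro d hd hd'
        exact (mem_filter.1 hd).2.2.1 (mem_filter.1 hd').2.2.1
    omega
  · intro hno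
    have key : ∀ d e : G.Dart, d.fst = v → e.fst = v → fc M d ∈ R → fc M e ∈ R := by
      intro d e hd he hdR
      have hsc : M.σ.SameCycle d e := by
        rw [← M.hv, hM.1, hM.1, hd, he]
      have := PanD.SameCycle.mem_closed (S := {x : G.Dart | x.fst = v ∧ fc M x ∈ R}) hsc (by
        intro x hx
        obtain ⟨hx1, hx2⟩ := hx
        refine ⟨(corner_fst hM x).trans hx1, ?_⟩
        by_contra hx3
        refine hno x ?_ hx1
        simp only [bd, mem_filter, mem_univ, true_and]
        refine ⟨hx2, ?_⟩
        rw [corner_fc_symm hM]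
        exact hx3) ⟨hd, hdR⟩
      exact this.2
    intro d e hd he
    exact ⟨key d e hd he, key e d he hd⟩

end C7
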