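import Pool.Agent.Lib.MP_86b854_co.Interface

set_option autoImplicit false

/-!
# MP_86b854_co : `S_FaceLen`, faces have length at least four
-/

namespace C7

open PLM T72 Finset Equiv

namespace FaceLenAux

variable {V : Type} [Fintype V] [DecidableEq V] {G : SimpleGraph V} [DecidableRel G.Adj]

theorem fc_eq_iff {M : CMap G.Dart V} {d e : G.Dart} : fc M d = fc M e ↔ M.φ.SameCycle d e :=
  Quotient.eq (r := Perm.SameCycle.setoid M.φ)

theorem fc_phi (M : CMap G.Dart V) (d : G.Dart) : fc M (M.φ d) = fc M d :=
  fc_eq_iff.2 (Perm.sameCycle_apply_left.2 (Perm.SameCycle.refl _ _))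

theorem phi_eq {M : CMap G.Dart V} (hM : PlaneMap M) (d : G.Dart) : M.φ d = M.σ d.symm := by
  rw [CMap.φ_apply, hM.2.1]

theorem sigma_fst {M : CMap G.Dart V} (hM : PlaneMap M) (d : G.Dart) : (M.σ d).fst = d.fst := by
  have h := (M.hv (M.σ d) d).2 (Perm.sameCycle_apply_left.2 (Perm.SameCycle.refl _ _))
  rw [hM.1, hM.1] at h
  exact h

theorem phi_fst {M : CMap G.Dart V} (hM : PlaneMap M) (d : G.Dart) : (M.φ d).fst = d.snd := by
  rw [phi_eq hM, sigma_fst hM]
  rfl

theorem same_of_fst {M : CMap G.Dart V} (hM : PlaneMap M) {d e : G.Dart} (h : d.fst = e.fst) :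
    M.σ.SameCycle d e := by
  rw [← M.hv, hM.1, hM.1]
  exact h

/-- a set of vertices closed under adjacency is everything -/
theorem conn_closed (hG : G.Connected) (A : Set V) (a : V) (ha : a ∈ A)
    (hcl : ∀ x ∈ A, ∀ y, G.Adj x y → y ∈ A) (v : V) : v ∈ A := by
  obtain ⟨w⟩ := hG.preconnected a v
  induction w with
  | nil => exact ha
  | cons h p ih => exact ih (hcl _ ha _ h)

theorem two {M : CMap G.Dart V} (hM : PlaneMap M) (hG : G.Connected)
    (hR : ∃ R : Finset (Fc M), (bd M R).Nonempty) (d : G.Dart) : M.φ (M.φ d) ≠ d := by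
  intro h
  have h1 : M.φ d = d.symm := by
    apply SimpleGraph.Dart.ext
    apply Prod.ext
    · show (M.φ d).fst = d.snd
      exact phi_fst hM d
    · show (M.φ d).snd = d.fst
      rw [← phi_fst hM (M.φ d), h]
  have h2 : M.σ d = d := by
    have h3 := phi_eq hM (M.φ d)
    rw [h, h1, SimpleGraph.Dart.symm_symm] at h3
    exact h3.symm
  have h4 : M.σ d.symm = d.symm := by
    rw [← phi_eq hM]
    exact h1
  have one : ∀ (x e : G.Dart), M.σ x = x → x.fst = e.fst → e = x := by
    intro x e hx hxe
    have h5 := PanD.SameCycle.mem_closed (same_of_fst hM hxe) (S := {x}) (by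
      intro z hz
      rw [Set.mem_singleton_iff] at hz
      rw [hz, hx]
      rfl) rfl
    exact h5
  have hall : ∀ e : G.Dart, e = d ∨ e = d.symm := by
    intro e
    have h6 := conn_closed hG {v | v = d.fst ∨ v = d.snd} d.fst (Or.inl rfl) (by
      rintro x (rfl | rfl) y hxy
      · have h7 := one d ⟨(d.fst, y), hxy⟩ h2 rfl
        right
        have h8 := congrArg (fun z : G.Dart => z.snd) h7
        exact h8
      · have h7 := one d.symm ⟨(d.snd, y), hxy⟩ h4 rfl
        left
        have h8 := congrArg (fun z : G.Dart => z.snd) h7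
        exact h8) e.fst
    rcases h6 with h6 | h6
    · exact Or.inl (one d e h2 h6.symm)
    · exact Or.inr (one d.symm e h4 h6.symm)
  have hf : ∀ e : G.Dart, fc M e = fc M d := by
    intro e
    rcases hall e with rfl | rfl
    · rfl
    · rw [← h1]
      exact fc_phi M d
  obtain ⟨R, e, he⟩ := hR
  rw [bd, mem_filter] at he
  apply he.2.2
  rw [hf e.symm, ← hf e]
  exact he.2.1

end FaceLenAux

open FaceLenAux in
theorem tFaceLen : S_FaceLen := by
  intro V _ _ G _ M hM hG htri hR f
  induction f using Quotient.inductionOn with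
  | _ d =>
    have h01 : ∀ x : G.Dart, M.φ x ≠ x := by
      intro x h
      have h1 := phi_fst hM x
      rw [h] at h1
      exact x.fst_ne_snd h1
    have h02 := two hM hG hR
    have h03 : ∀ x : G.Dart, M.φ (M.φ (M.φ x)) ≠ x := by
      intro x h
      have h1 := phi_fst hM x
      have h2 := phi_fst hM (M.φ x)
      have h3 := phi_fst hM (M.φ (M.φ x))
      rw [h] at h3
      have a1 : G.Adj x.fst (M.φ x).fst := by
        rw [h1]
        exact x.adj
      have a2 : G.Adj (M.φ x).fst (M.φ (M.φ x)).fst := by
        rw [h2]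
        exact (M.φ x).adj
      have a3 : G.Adj (M.φ (M.φ x)).fst x.fst := by
        rw [h3]
        exact (M.φ (M.φ x)).adj
      apply htri {x.fst, (M.φ x).fst, (M.φ (M.φ x)).fst}
      rw [SimpleGraph.is3Clique_triple_iff]
      exact ⟨a1, a3.symm, a2⟩
    have hsub : ({d, M.φ d, M.φ (M.φ d), M.φ (M.φ (M.φ d))} : Finset G.Dart) ⊆
        univ.filter fun e => fc M e = (Quotient.mk _ d : Fc M) := by
      intro e he
      rw [mem_filter]
      refine ⟨mem_univ _, ?_⟩
      show fc M e = fc M d
      rw [mem_insert, mem_insert, mem_insert, mem_singleton] at he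
      rcases he with rfl | rfl | rfl | rfl
      · rfl
      · exact fc_phi M d
      · rw [fc_phi, fc_phi]
      · rw [fc_phi, fc_phi, fc_phi]
    have hcard : ({d, M.φ d, M.φ (M.φ d), M.φ (M.φ (M.φ d))} : Finset G.Dart).card = 4 := by
      rw [card_insert_of_notMem, card_insert_of_notMem, card_insert_of_notMem, card_singleton]
      · rw [mem_singleton]
        exact (h01 _).symm
      · rw [mem_insert, mem_singleton]
        rintro (h | h)
        · exact h01 _ h.symm
        · exact h02 _ h.symm
      · rw [mem_insert, mem_insert, mem_singleton]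
        rintro (h | h | h)
        · exact h01 _ h.symm
        · exact h02 _ h.symm
        · exact h03 _ h.symm
    show 4 ≤ (univ.filter fun e => fc M e = (Quotient.mk _ d : Fc M)).card
    rw [← hcard]
    exact card_le_card hsub

end C7
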