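import Pool.Agent.Lib.MP_86b854_co.D.Bas

set_option autoImplicit false

/-!
# MP_86b854_co : Euler's formula for the inside of a cycle
-/

namespace C7

open PLM T72 Finset Equiv

namespace DEu

open Bas

variable {V : Type} [Fintype V] [DecidableEq V] {G : SimpleGraph V} [DecidableRel G.Adj]
  {M : CMap G.Dart V}

/-- the darts which do not have both sides in the region -/
noncomputable def ho (M : CMap G.Dart V) (R : Finset (Fc M)) : Finset G.Dart :=
  univ.filter fun d => ¬ (fc M d ∈ R ∧ fc M d.symm ∈ R)

theorem mem_ho {R : Finset (Fc M)} {d : G.Dart} :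
    d ∈ ho M R ↔ ¬ (fc M d ∈ R ∧ fc M d.symm ∈ R) := by
  simp [ho]

open Classical in
/-- the class of a dart -/
noncomputable def qF (M : CMap G.Dart V) (R : Finset (Fc M)) (d : G.Dart) :
    Option {f : Fc M // f ∉ R} :=
  if h : fc M d ∉ R then some ⟨fc M d, h⟩ else none

theorem qF_some {R : Finset (Fc M)} {d : G.Dart} (h : fc M d ∉ R) :
    qF M R d = some ⟨fc M d, h⟩ := dif_pos h

theorem qF_none {R : Finset (Fc M)} {d : G.Dart} (h : fc M d ∈ R) : qF M R d = none :=
  dif_neg fun h1 => h1 h

theorem qF_phi (R : Finset (Fc M)) (d : G.Dart) : qF M R (M.φ d) = qF M R d := by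
  by_cases h : fc M d ∈ R
  · rw [qF_none h, qF_none]
    rwa [fc_phi]
  · have h1 : fc M (M.φ d) ∉ R := by rwa [fc_phi]
    rw [qF_some h, qF_some h1]
    congr 1
    exact Subtype.ext (fc_phi d)

open Classical in
/-- the component of a vertex -/
noncomputable def qV (M : CMap G.Dart V) (R : Finset (Fc M)) (v : V) :
    Option {v : V // v ∈ inV M R} :=
  if h : v ∈ inV M R then some ⟨v, h⟩ else none

theorem qV_some {R : Finset (Fc M)} {v : V} (h : v ∈ inV M R) :
    qV M R v = some ⟨v, h⟩ := dif_pos h

theorem qV_none {R : Finset (Fc M)} {v : V} (h : v ∉ inV M R) : qV M R v = none :=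
  dif_neg h

theorem ncls_ho (h2 : S_Two) (hM : PlaneMap M) (hG : G.Connected) {R : Finset (Fc M)} {k : ℕ}
    {w : ZMod k → V} (hk : 3 ≤ k) (h : Bd M R k w) :
    ncls M (ho M R) + R.card = Fintype.card (Fc M) + 1 := by
  classical
  have h1 : ncls M (ho M R) = Fintype.card (Option {f : Fc M // f ∉ R}) := by
    refine card_quot _ (qF M R) ?_ ?_
    · intro b
      cases b with
      | none => exact ⟨_, qF_none (mem_bd.1 (bdart_mem h 0)).1⟩
      | some f =>
        obtain ⟨f, hf⟩ := f
        obtain ⟨d, rfl⟩ := exists_fc f
        exact ⟨d, qF_some hf⟩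
    · intro a b
      constructor
      · intro hab
        have h3 := hab {x | qF M R a = qF M R x} (fun x => by
          change qF M R a = qF M R x ↔ qF M R a = qF M R (M.φ x)
          rw [qF_phi]) fun x hx => by
          change qF M R a = qF M R x ↔ qF M R a = qF M R x.symm
          rw [mem_ho, not_not] at hx
          rw [qF_none hx.1, qF_none hx.2]
        exact h3.1 rfl
      · intro hab S hS1 hS2
        by_cases ha : fc M a ∈ R
        · rw [qF_none ha] at hab
          by_cases hb : fc M b ∈ R
          · refine (h2 V G M hM hG R k w hk h).1 S hS1 (fun x h4 h5 => hS2 x ?_) a b ha hb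
            rw [mem_ho, not_not]
            exact ⟨h4, h5⟩
          · rw [qF_some hb] at hab
            exact absurd hab (by simp)
        · rw [qF_some ha] at hab
          by_cases hb : fc M b ∈ R
          · rw [qF_none hb] at hab
            exact absurd hab (by simp)
          · rw [qF_some hb] at hab
            have h6 : fc M a = fc M b := congrArg Subtype.val (Option.some.inj hab)
            exact mem_of_fc hS1 h6
  have h5 := Fintype.card_subtype_compl (fun f : Fc M => f ∈ R)
  rw [Fintype.card_coe] at h5
  have h6 : R.card ≤ Fintype.card (Fc M) := Finset.card_le_univ R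
  rw [h1, Fintype.card_option, h5]
  omega

theorem ncmp_ho (h2 : S_Two) (hM : PlaneMap M) (hG : G.Connected) {R : Finset (Fc M)} {k : ℕ}
    {w : ZMod k → V} (hk : 3 ≤ k) (h : Bd M R k w) :
    ncmp (ho M R) = (inV M R).card + 1 := by
  classical
  have h1 : ncmp (ho M R) = Fintype.card (Option {v : V // v ∈ inV M R}) := by
    refine card_quot _ (qV M R) ?_ ?_
    · intro b
      cases b with
      | none => exact ⟨_, qV_none (notin_symm_fst hM (mem_bd.1 (bdart_mem h 0)).2)⟩
      | some v => exact ⟨v, qV_some v.2⟩
    · intro a b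
      constructor
      · intro hab
        have h3 := hab {x | qV M R a = qV M R x} fun d hd => by
          change qV M R a = qV M R d.fst ↔ qV M R a = qV M R d.snd
          rw [mem_ho] at hd
          rw [qV_none fun h4 => hd (both_of_fst hM h4), qV_none fun h4 => hd (both_of_snd hM h4)]
        exact h3.1 rfl
      · intro hab S hS
        by_cases ha : a ∈ inV M R
        · rw [qV_some ha] at hab
          by_cases hb : b ∈ inV M R
          · rw [qV_some hb] at hab
            have h6 : a = b := congrArg Subtype.val (Option.some.inj hab)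
            rw [h6]
          · rw [qV_none hb] at hab
            exact absurd hab (by simp)
        · rw [qV_none ha] at hab
          by_cases hb : b ∈ inV M R
          · rw [qV_some hb] at hab
            exact absurd hab (by simp)
          · exact (h2 V G M hM hG R k w hk h).2.2.1 S (fun d hd => hS d (mem_ho.2 hd)) a b ha hb
  rw [h1, Fintype.card_option, Fintype.card_coe]

theorem ncls_univ : ncls M univ = Fintype.card (Fc M) := by
  classical
  refine card_quot _ (fc M) exists_fc ?_
  intro a b
  constructor
  · intro hab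
    exact (hab {x | fc M a = fc M x} (fun x => by
      change fc M a = fc M x ↔ fc M a = fc M (M.φ x)
      rw [fc_phi]) fun x hx => absurd (mem_univ x) hx).1 rfl
  · intro hab S hS1 _
    exact mem_of_fc hS1 hab

theorem ncmp_univ (hG : G.Connected) : ncmp (univ : Finset G.Dart) = 1 := by
  classical
  have h1 : ncmp (univ : Finset G.Dart) = Fintype.card Unit := by
    refine card_quot _ (fun _ => ()) ?_ ?_
    · intro _
      obtain ⟨v⟩ := hG.nonempty
      exact ⟨v, rfl⟩
    · intro a b
      refine ⟨fun _ => rfl, fun _ S hS => ?_⟩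
      have h2 : ∀ u v, G.Adj u v → u ∈ S → v ∈ S := fun u v huv hu =>
        (hS ⟨(u, v), huv⟩ (mem_univ _)).1 hu
      exact ⟨conn_closed hG S h2 a b, conn_closed hG S h2 b a⟩
  rw [h1, Fintype.card_unit]

theorem card_ho (R : Finset (Fc M)) :
    (ho M R).card + (bo M R).card = Fintype.card G.Dart := by
  have h1 := Finset.card_filter_add_card_filter_not (s := (univ : Finset G.Dart))
    (fun d => fc M d ∈ R ∧ fc M d.symm ∈ R)
  rw [card_univ] at h1
  unfold ho bo
  omega

end DEu

open Bas DEu in
/-- **DiscEuler.** -/
theorem tDiscEuler (h1 : S_EulerSub) (h2 : S_Two) : S_DiscEuler := by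
  intro V _ _ G _ M hM hG R k w hk h
  have h3 := h1 V G M hM hG ⟨bdart h.2.1 0⟩ (ho M R) fun d hd => by
    rw [mem_ho] at hd ⊢
    rw [SimpleGraph.Dart.symm_symm]
    tauto
  have h4 := h1 V G M hM hG ⟨bdart h.2.1 0⟩ univ fun d _ => mem_univ _
  rw [ncls_univ, ncmp_univ hG, card_univ] at h4
  have h5 := ncls_ho h2 hM hG hk h
  have h6 := ncmp_ho h2 hM hG hk h
  have h7 := card_ho (M := M) R
  have h8 := sum_len_eq (M := M) R
  rw [bd_card (by omega) h] at h8
  omega

end C7
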