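import Pool.Agent.Lib.MP_86b854_co.D.ColAux

set_option autoImplicit false
set_option linter.unusedSectionVars false

/-!
# MP_86b854_co : ClosedStep
-/

namespace C7

open PLM T72 Finset Equiv ColAux

namespace ClosedAux

variable {V : Type} [Fintype V] [DecidableEq V] {G : SimpleGraph V} [DecidableRel G.Adj]

theorem card_darts_eq (M : CMap G.Dart V) :
    Fintype.card G.Dart = ∑ f : Fc M, len M f := by
  rw [← Finset.card_univ, Finset.card_eq_sum_card_fiberwise (s := (univ : Finset G.Dart))
    (f := fc M) (t := univ) (fun d _ => Finset.mem_coe.2 (mem_univ _))]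
  rfl

theorem nF_eq (M : CMap G.Dart V) : M.nF = Fintype.card (Fc M) := by
  rw [← Nat.card_eq_fintype_card]; rfl

theorem nV_le (M : CMap G.Dart V) (hM : PlaneMap M) : M.nV ≤ Fintype.card V := by
  rw [← Nat.card_eq_fintype_card]
  refine Nat.card_le_card_of_injective
    (Quotient.lift (fun d : G.Dart => d.fst) ?_) ?_
  · intro d e hde
    have := (M.hv d e).2 hde
    rwa [hM.1, hM.1] at this
  · intro a b
    refine Quotient.inductionOn₂ a b fun d e hde => ?_
    exact Quotient.sound (sameCycle_of_fst hM hde)

theorem nC_pos (M : CMap G.Dart V) (d : G.Dart) : 1 ≤ M.nC := by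
  have h1 : Finite (Quotient M.compSetoid) := Quotient.finite _
  have h2 : Nonempty (Quotient M.compSetoid) := ⟨Quotient.mk _ d⟩
  exact Nat.one_le_iff_ne_zero.2 (Nat.card_ne_zero.2 ⟨h2, h1⟩)

end ClosedAux

open ClosedAux in
theorem tClosedStep (hInd : S_Ind) : S_ClosedStep := by
  intro n hcl hext V _ _ G _ M hV hM htri L hL
  by_cases hdeg : ∃ v, G.degree v ≤ 2
  · obtain ⟨v, hv⟩ := hdeg
    have hYc : ({v}ᶜ : Finset V).card ≤ n := by
      have := card_compl_add_card ({v} : Finset V)
      rw [card_singleton] at this
      omega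
    obtain ⟨f, hf⟩ := closed_sub hInd hcl hM htri hYc (L := L) (fun u _ => hL u)
    set A : Finset ℕ := (G.neighborFinset v).biUnion f with hA
    have hAc : A.card ≤ 4 := by
      have h1 : A.card ≤ (G.neighborFinset v).card * 2 := by
        refine card_biUnion_le_card_mul _ _ _ fun u hu => ?_
        have hu' : u ∈ ({v}ᶜ : Finset V) := by
          rw [mem_compl, mem_singleton]
          exact ((SimpleGraph.mem_neighborFinset _ _ _).1 hu).ne'
        exact (hf.1 u hu').2.le
      rw [SimpleGraph.card_neighborFinset_eq_degree] at h1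
      omega
    have hB : 2 ≤ (L v \ A).card := by
      have := le_card_sdiff A (L v)
      rw [hL v] at this
      omega
    obtain ⟨c, hc, hc2⟩ := exists_subset_card_eq hB
    have hcd : ∀ u, G.Adj v u → Disjoint c (f u) := by
      intro u hu
      rw [Finset.disjoint_left]
      intro x hx hxf
      exact (mem_sdiff.1 (hc hx)).2
        (mem_biUnion.2 ⟨u, (SimpleGraph.mem_neighborFinset _ _ _).2 hu, hxf⟩)
    refine ⟨Function.update f v c, fun u _ => ?_, fun a _ b _ hab => ?_⟩
    · by_cases h : u = v
      · subst h
        rw [Function.update_self]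
        exact ⟨hc.trans sdiff_subset, hc2⟩
      · rw [Function.update_of_ne h]
        exact hf.1 u (by rw [mem_compl, mem_singleton]; exact h)
    · by_cases ha : a = v
      · subst ha
        rw [Function.update_self, Function.update_of_ne hab.ne']
        exact hcd b hab
      · rw [Function.update_of_ne ha]
        by_cases hb : b = v
        · subst hb
          rw [Function.update_self]
          exact (hcd a hab.symm).symm
        · rw [Function.update_of_ne hb]
          exact hf.2 a (by rw [mem_compl, mem_singleton]; exact ha) b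
            (by rw [mem_compl, mem_singleton]; exact hb) hab
  push Not at hdeg
  rcases isEmpty_or_nonempty V with hemp | hne
  · exact ⟨fun _ => ∅, fun v _ => (hemp.false v).elim, fun v _ => (hemp.false v).elim⟩
  obtain ⟨u₀⟩ := hne
  have hN : ∀ v, 3 ≤ (G.neighborFinset v).card := by
    intro v
    rw [SimpleGraph.card_neighborFinset_eq_degree]
    have := hdeg v
    omega
  obtain ⟨v₀, hv₀⟩ : (G.neighborFinset u₀).Nonempty := by
    rw [← card_pos]
    have := hN u₀
    omega
  rw [SimpleGraph.mem_neighborFinset] at hv₀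
  have h6 : 6 ≤ Fintype.card V := by
    have hd : Disjoint (G.neighborFinset u₀) (G.neighborFinset v₀) := by
      rw [Finset.disjoint_left]
      intro x hx hx'
      rw [SimpleGraph.mem_neighborFinset] at hx hx'
      exact htri {u₀, v₀, x} (SimpleGraph.is3Clique_triple_iff.2 ⟨hv₀, hx, hx'⟩)
    have h1 := card_union_of_disjoint hd
    have h2 : (G.neighborFinset u₀ ∪ G.neighborFinset v₀).card ≤ Fintype.card V :=
      card_le_univ _
    have := hN u₀
    have := hN v₀
    omega
  obtain ⟨o, ho⟩ : ∃ o : Fc M, len M o ≤ 5 := by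
    by_contra hcon
    push Not at hcon
    have e1 := (PLM.euler_iff G.Dart V M).1 hM.2.2
    have e2 := (PLM.euler_le G.Dart V M).1
    have e3 := card_darts_eq M
    have e4 : Fintype.card (Fc M) * 6 ≤ ∑ f : Fc M, len M f := by
      rw [← Finset.card_univ, ← smul_eq_mul]
      exact Finset.card_nsmul_le_sum _ _ _ fun f _ => hcon f
    have e5 := nV_le M hM
    have e6 := nC_pos M ⟨(u₀, v₀), hv₀⟩
    have e7 : Fintype.card V * 3 ≤ Fintype.card G.Dart := by
      rw [SimpleGraph.dart_card_eq_sum_degrees, ← Finset.card_univ, ← smul_eq_mul]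
      exact Finset.card_nsmul_le_sum _ _ _ fun v _ => by
        rw [← SimpleGraph.card_neighborFinset_eq_degree]; exact hN v
    rw [nF_eq] at e1
    omega
  classical
  set P : Finset V := univ.filter fun v => Inc M v o with hP
  have hPc : P.card ≤ 5 := by
    refine le_trans ?_ ho
    have h1 : P ⊆ (univ.filter fun d : G.Dart => fc M d = o).image (fun d => d.fst) := by
      intro v hv
      obtain ⟨d, hd, hdo⟩ := (mem_filter.1 hv).2
      exact mem_image.2 ⟨d, mem_filter.2 ⟨mem_univ _, hdo⟩, hd⟩
    exact (card_le_card h1).trans card_image_le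
  obtain ⟨g, hg⟩ := closed_sub hInd hcl hM htri (Y := P) (by omega) (L := L) (fun u _ => hL u)
  obtain ⟨f, -, hf⟩ := hext V G M hV hM htri o P ho
    (fun v => by rw [hP, mem_filter]; simp) L g (fun v _ => hL v) hg
  exact ⟨f, hf⟩

end C7
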