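import Pool.Agent.Lib.MP_86b854_co.Interface

set_option autoImplicit false
set_option linter.unusedSectionVars false

/-!
# MP_86b854_co : colourings of induced subgraphs (helpers for MinA, MinB, ClosedStep)
-/

namespace C7

namespace ColAux

open PLM T72 Finset Equiv

variable {V : Type} [Fintype V] [DecidableEq V] {G : SimpleGraph V} [DecidableRel G.Adj]

theorem phi_fst {M : CMap G.Dart V} (hM : PlaneMap M) (d : G.Dart) : (M.φ d).fst = d.snd := by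
  have h1 : M.vt (M.σ (M.α d)) = M.vt (M.α d) :=
    (M.hv _ _).2 (Perm.sameCycle_apply_left.2 (Perm.SameCycle.refl _ _))
  rw [hM.1, hM.1, hM.2.1] at h1
  rw [CMap.φ_apply, hM.2.1, h1]
  rfl

theorem phi_symm {M : CMap G.Dart V} (hM : PlaneMap M) (d : G.Dart) : M.φ d.symm = M.σ d := by
  rw [CMap.φ_apply, hM.2.1, SimpleGraph.Dart.symm_symm]

theorem fc_phi (M : CMap G.Dart V) (d : G.Dart) : fc M (M.φ d) = fc M d :=
  Quotient.sound (Perm.sameCycle_apply_left.2 (Perm.SameCycle.refl _ _))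

theorem fc_sigma {M : CMap G.Dart V} (hM : PlaneMap M) (d : G.Dart) :
    fc M (M.σ d) = fc M d.symm := by
  rw [← phi_symm hM, fc_phi]

theorem sigma_fst {M : CMap G.Dart V} (hM : PlaneMap M) (d : G.Dart) : (M.σ d).fst = d.fst := by
  have h1 : M.vt (M.σ d) = M.vt d :=
    (M.hv _ _).2 (Perm.sameCycle_apply_left.2 (Perm.SameCycle.refl _ _))
  rwa [hM.1, hM.1] at h1

theorem sameCycle_of_fst {M : CMap G.Dart V} (hM : PlaneMap M) {d e : G.Dart}
    (h : d.fst = e.fst) : M.σ.SameCycle d e := by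
  rw [← M.hv, hM.1, hM.1, h]

theorem gi_tri (h : G.CliqueFree 3) (Y : Finset V) : (Gi G Y).CliqueFree 3 :=
  SimpleGraph.CliqueFree.comap
    (SimpleGraph.Embedding.comap (Function.Embedding.subtype _) G).isContained h

/-- a colouring of `Gi G Y` gives one of `Y` -/
theorem col_lift {Y : Finset V} {L : V → Finset ℕ} {f' : {v // v ∈ Y} → Finset ℕ}
    (h : ColOn (Gi G Y) (fun v => L v) univ f') :
    ColOn G L Y (fun v => if hv : v ∈ Y then f' ⟨v, hv⟩ else ∅) := by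
  refine ⟨fun v hv => ?_, fun u hu v hv huv => ?_⟩
  · show (if hv : v ∈ Y then f' ⟨v, hv⟩ else ∅) ⊆ L v ∧
      (if hv : v ∈ Y then f' ⟨v, hv⟩ else ∅).card = 2
    rw [dif_pos hv]
    exact h.1 ⟨v, hv⟩ (mem_univ _)
  · show Disjoint (if hv : u ∈ Y then f' ⟨u, hv⟩ else ∅) (if hv : v ∈ Y then f' ⟨v, hv⟩ else ∅)
    rw [dif_pos hu, dif_pos hv]
    exact h.2 ⟨u, hu⟩ (mem_univ _) ⟨v, hv⟩ (mem_univ _) huv

theorem closed_sub (hInd : S_Ind) {n : ℕ} (hc : ClosedN n) {M : CMap G.Dart V} (hM : PlaneMap M)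
    (htri : G.CliqueFree 3) {Y : Finset V} (hY : Y.card ≤ n) {L : V → Finset ℕ}
    (hL : ∀ v ∈ Y, (L v).card = 7) : ∃ f : V → Finset ℕ, ColOn G L Y f := by
  obtain ⟨M', hM', -⟩ := hInd V G M hM Y
  obtain ⟨f', hf'⟩ := hc {v // v ∈ Y} (Gi G Y) M' (by rw [Fintype.card_coe]; exact hY) hM'
    (gi_tri htri Y) (fun v => L v) (fun v => hL v v.2)
  exact ⟨_, col_lift hf'⟩

theorem ext_sub {n : ℕ} (he : ExtN n) (htri : G.CliqueFree 3) {Y : Finset V} (hY : Y.card ≤ n)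
    {M' : CMap (Gi G Y).Dart {v // v ∈ Y}} (hM' : PlaneMap M') {o' : Fc M'} (hlen : len M' o' ≤ 5)
    {P : Finset V} (hPY : P ⊆ Y) (hP : ∀ v : {v // v ∈ Y}, Inc M' v o' ↔ (v : V) ∈ P)
    {L g : V → Finset ℕ} (hL : ∀ v ∈ Y, v ∉ P → (L v).card = 7) (hg : ColOn G L P g) :
    ∃ f : V → Finset ℕ, (∀ v ∈ P, f v = g v) ∧ ColOn G L Y f := by
  obtain ⟨f', hf1, hf2⟩ := he {v // v ∈ Y} (Gi G Y) M' (by rw [Fintype.card_coe]; exact hY) hM'
    (gi_tri htri Y) o' (univ.filter fun v => (v : V) ∈ P) hlen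
    (fun v => by rw [hP, mem_filter]; simp) (fun v => L v) (fun v => g v)
    (fun v hv => hL v v.2 fun h => hv (mem_filter.2 ⟨mem_univ _, h⟩))
    ⟨fun v hv => hg.1 v (mem_filter.1 hv).2,
      fun u hu v hv huv => hg.2 u (mem_filter.1 hu).2 v (mem_filter.1 hv).2 huv⟩
  refine ⟨_, fun v hv => ?_, col_lift hf2⟩
  show (if hv : v ∈ Y then f' ⟨v, hv⟩ else ∅) = g v
  rw [dif_pos (hPY hv)]
  exact hf1 ⟨v, hPY hv⟩ (mem_filter.2 ⟨mem_univ _, hv⟩)

/-- two colourings together -/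
theorem glue {L : V → Finset ℕ} {Y Z : Finset V} {f₁ f₂ : V → Finset ℕ} (h1 : ColOn G L Y f₁)
    (h2 : ColOn G L Z f₂) (hcov : ∀ v, v ∉ Y → v ∈ Z) (hag : ∀ v ∈ Y, v ∈ Z → f₁ v = f₂ v)
    (hno : ∀ u v, u ∉ Z → v ∉ Y → ¬ G.Adj u v) :
    ColOn G L univ (fun v => if v ∈ Y then f₁ v else f₂ v) := by
  have h3 : ∀ v ∈ Z, (if v ∈ Y then f₁ v else f₂ v) = f₂ v := by
    intro v hv
    split_ifs with h
    · exact hag v h hv
    · rfl
  have h4 : ∀ v ∈ Y, (if v ∈ Y then f₁ v else f₂ v) = f₁ v := fun v hv => if_pos hv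
  refine ⟨fun v _ => ?_, fun u _ v _ huv => ?_⟩
  · show (if v ∈ Y then f₁ v else f₂ v) ⊆ L v ∧ (if v ∈ Y then f₁ v else f₂ v).card = 2
    by_cases hv : v ∈ Y
    · rw [h4 v hv]; exact h1.1 v hv
    · rw [h3 v (hcov v hv)]; exact h2.1 v (hcov v hv)
  · show Disjoint (if u ∈ Y then f₁ u else f₂ u) (if v ∈ Y then f₁ v else f₂ v)
    by_cases hu : u ∈ Y
    · by_cases hv : v ∈ Y
      · rw [h4 u hu, h4 v hv]; exact h1.2 u hu v hv huv
      · have hu2 : u ∈ Z := by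
          by_contra h
          exact hno u v h hv huv
        rw [h3 u hu2, h3 v (hcov v hv)]; exact h2.2 u hu2 v (hcov v hv) huv
    · have hv2 : v ∈ Z := by
        by_contra h
        exact hno v u h hu huv.symm
      rw [h3 u (hcov u hu), h3 v hv2]; exact h2.2 u (hcov u hu) v hv2 huv

end ColAux

end C7
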