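import Pool.Agent.Lib.MP_86b854_co.Interface2

set_option autoImplicit false

/-!
# MP_86b854_co : the cost of the vertices of a transversal
-/

namespace C7

open PLM T72 Finset Equiv

theorem cost_bt {V : Type} [DecidableEq V] (G : SimpleGraph V) [DecidableRel G.Adj]
    (W Y : Finset V) : eBt G W Y = ∑ v ∈ W, dgI G Y v := by
  simp only [eBt, dgI, Finset.card_filter, Finset.sum_product]

theorem cost_in {V : Type} [DecidableEq V] (G : SimpleGraph V) [DecidableRel G.Adj]
    (W : Finset V) : eIn G W = ∑ v ∈ W, dgI G W v := by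
  simp only [eIn, dgI, Finset.card_filter, Finset.sum_product]

theorem cost_union {V : Type} [DecidableEq V] (G : SimpleGraph V) [DecidableRel G.Adj]
    (W Y : Finset V) (h : Disjoint W Y) (v : V) : dgI G (Y ∪ W) v = dgI G Y v + dgI G W v := by
  rw [dgI, Finset.filter_union, Finset.card_union_of_disjoint]
  · rfl
  · exact Finset.disjoint_filter_filter h.symm

/-- **Cost.** -/
theorem tCost : S_Cost := by
  intro V _ _ G _ W Y U hWY hUW hU hUn hUY
  have hpos : ∀ v, ∀ u ∈ W, G.Adj v u → 1 ≤ dgI G W v := by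
    intro v u hu h
    exact Finset.card_pos.2 ⟨u, Finset.mem_filter.2 ⟨hu, h⟩⟩
  have hU0 : ∀ v ∈ U, dgI G Y v = 0 := by
    intro v hv
    rw [dgI, Finset.card_eq_zero, Finset.filter_eq_empty_iff]
    exact fun u hu => hUY v hv u hu
  refine ⟨W.filter fun v => dgI G W v = 0 ∨ (v ∈ U ∧ dgI G W v = 1), Finset.filter_subset _ _,
    ?_, ?_⟩
  · intro u hu v hv h
    obtain ⟨hu1, hu2⟩ := Finset.mem_filter.1 hu
    obtain ⟨hv1, hv2⟩ := Finset.mem_filter.1 hv
    have h1 := hpos u v hv1 h
    have h2 := hpos v u hu1 h.symm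
    have h3 : u ∈ U := by
      rcases hu2 with h4 | h4
      · omega
      · exact h4.1
    have h5 : v ∈ U := by
      rcases hv2 with h4 | h4
      · omega
      · exact h4.1
    exact hU u h3 v h5 h
  · have hc : U.card = ∑ v ∈ W, if v ∈ U then 1 else 0 := by
      rw [Finset.sum_ite_mem, Finset.inter_eq_right.2 hUW, Finset.sum_const, smul_eq_mul, mul_one]
    have hw : 2 * W.card = ∑ v ∈ W, 2 := by
      rw [Finset.sum_const, smul_eq_mul, mul_comm]
    rw [hc, hw, cost_in, cost_bt, Finset.sum_filter, Finset.mul_sum, ← Finset.sum_add_distrib,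
      ← Finset.sum_add_distrib, ← Finset.sum_add_distrib]
    refine Finset.sum_le_sum fun v hv => ?_
    rw [cost_union G W Y hWY v]
    by_cases h1 : v ∈ U
    · have h2 := hU0 v h1
      obtain ⟨u, hu, h3⟩ := hUn v h1
      have h4 := hpos v u hu h3
      rw [if_pos h1]
      by_cases h5 : dgI G W v = 1
      · rw [if_pos (Or.inr ⟨h1, h5⟩)]
        omega
      · omega
    · rw [if_neg h1]
      by_cases h5 : dgI G W v = 0
      · rw [if_pos (Or.inl h5)]
        omega
      · omega

end C7
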