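import Pool.Agent.Lib.MP_86b854_co.D.Bas

set_option autoImplicit false

/-!
# MP_86b854_co : the number of edges which touch the interior of a disc
-/

namespace C7

open PLM T72 Finset Equiv

namespace DCt

open Bas

variable {V : Type} [Fintype V] [DecidableEq V] {G : SimpleGraph V} [DecidableRel G.Adj]
  {M : CMap G.Dart V}

/-- darts from `X` to `Y` -/
theorem card_darts (X Y : Finset V) :
    (univ.filter fun d : G.Dart => d.fst ∈ X ∧ d.snd ∈ Y).card =
      ((X ×ˢ Y).filter fun p => G.Adj p.1 p.2).card := by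
  rw [← card_image_of_injective (univ.filter fun d : G.Dart => d.fst ∈ X ∧ d.snd ∈ Y)
    (SimpleGraph.Dart.toProd_injective (G := G))]
  congr 1
  ext p
  simp only [mem_image, mem_filter, mem_univ, true_and, mem_product]
  constructor
  · rintro ⟨d, h, rfl⟩
    exact ⟨h, d.adj⟩
  · rintro ⟨h1, h2⟩
    exact ⟨⟨p, h2⟩, h1, rfl⟩

theorem card_swap (X Y : Finset V) :
    (univ.filter fun d : G.Dart => d.fst ∈ X ∧ d.snd ∈ Y).card =
      (univ.filter fun d : G.Dart => d.fst ∈ Y ∧ d.snd ∈ X).card := by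
  refine card_bij (fun d _ => d.symm) ?_ ?_ ?_
  · intro d hd
    rw [mem_filter] at hd ⊢
    exact ⟨mem_univ _, hd.2.2, hd.2.1⟩
  · intro d _ e _ h
    exact SimpleGraph.Dart.symm_involutive.injective h
  · intro d hd
    rw [mem_filter] at hd
    exact ⟨d.symm, mem_filter.2 ⟨mem_univ _, hd.2.2, hd.2.1⟩, SimpleGraph.Dart.symm_symm _⟩

theorem card_bo (hM : PlaneMap M) (R : Finset (Fc M)) :
    (bo M R).card = (chd M R).card + eIn G (inV M R) + 2 * eBt G (inV M R) (inV M R)ᶜ := by
  have h1 : bo M R = (chd M R ∪ univ.filter fun d : G.Dart => d.fst ∈ inV M R ∧ d.snd ∈ inV M R) ∪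
      ((univ.filter fun d : G.Dart => d.fst ∈ inV M R ∧ d.snd ∈ (inV M R)ᶜ) ∪
        univ.filter fun d : G.Dart => d.fst ∈ (inV M R)ᶜ ∧ d.snd ∈ inV M R) := by
    ext d
    have h2 : d.fst ∈ inV M R → fc M d ∈ R ∧ fc M d.symm ∈ R := both_of_fst hM
    have h3 : d.snd ∈ inV M R → fc M d ∈ R ∧ fc M d.symm ∈ R := both_of_snd hM
    simp only [mem_union, mem_filter, mem_univ, true_and, mem_bo, chd, mem_compl]
    tauto
  rw [h1, card_union_of_disjoint, card_union_of_disjoint, card_union_of_disjoint,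
    card_swap (inV M R)ᶜ (inV M R), card_darts, card_darts]
  · unfold eIn eBt
    ring
  · rw [Finset.disjoint_left]
    intro d
    simp only [mem_filter, mem_univ, true_and, mem_compl]
    tauto
  · rw [Finset.disjoint_left]
    intro d
    simp only [mem_filter, mem_univ, true_and, mem_compl, chd]
    tauto
  · rw [Finset.disjoint_left]
    intro d
    simp only [mem_union, mem_filter, mem_univ, true_and, mem_compl, chd]
    tauto

end DCt

open Bas DCt in
/-- **DiscCount.** -/
theorem tDiscCount (h1 : S_DiscEuler) : S_DiscCount := by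
  intro V _ _ G _ M hM hG R k w hk h
  have h2 := h1 V G M hM hG R k w hk h
  have h3 := sum_len_eq (M := M) R
  rw [bd_card (by omega) h, card_bo hM] at h3
  rw [sum_sub_distrib, sum_const]
  have h4 : (∑ f ∈ R, (len M f : ℤ)) = ((∑ f ∈ R, len M f : ℕ) : ℤ) := by push_cast; rfl
  rw [h4]
  simp only [nsmul_eq_mul]
  zify at h2 h3 ⊢
  rw [h3] at h2 ⊢
  linarith

end C7
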