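import Pool.Agent.Lib.MP_86b854_co.Interface

set_option autoImplicit false
set_option linter.unusedSectionVars false

/-!
# MP_86b854_co : Euler's formula for a set of edges of a connected plane map
-/

namespace C7

open PLM PLM.EulerAux2 T72 Finset Equiv

namespace EulerSubAux

variable {V : Type} [Fintype V] [DecidableEq V] {G : SimpleGraph V} [DecidableRel G.Adj]

/-- functions which are constant on the classes -/
theorem mem_cls {M : CMap G.Dart V} {H : Finset G.Dart} {h : G.Dart → K} :
    h ∈ cf (clsS M H) ↔ (∀ d, h (M.φ d) = h d) ∧ ∀ d ∉ H, h d.symm = h d := by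
  constructor
  · intro hh
    refine ⟨fun d => ?_, fun d hd => ?_⟩
    · exact hh _ _ (fun S h1 _ => (h1 d).symm)
    · exact hh _ _ (fun S _ h2 => (h2 d hd).symm)
  · rintro ⟨h1, h2⟩ d e hde
    have h3 := hde {x | h x = h d} (fun x => by
      change h x = h d ↔ h (M.φ x) = h d
      rw [h1]) (fun x hx => by
      change h x = h d ↔ h x.symm = h d
      rw [h2 x hx])
    exact (h3.1 rfl).symm

theorem mem_cmp {H : Finset G.Dart} {g : V → K} :
    g ∈ cf (cmpS H) ↔ ∀ d ∈ H, g d.fst = g d.snd := by
  constructor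
  · intro hg d hd
    exact hg _ _ (fun S h1 => h1 d hd)
  · intro h1 v w hvw
    have h3 := hvw {x | g x = g v} (fun d hd => by
      change g d.fst = g v ↔ g d.snd = g v
      rw [h1 d hd])
    exact (h3.1 rfl).symm

/-- the boundary map -/
def bdA (M : CMap G.Dart V) (H : Finset G.Dart) : (cf (clsS M H)) →ₗ[K] (G.Dart → K) where
  toFun h d := (h : G.Dart → K) d + (h : G.Dart → K) d.symm
  map_add' := by
    intro a b
    funext d
    simp only [Submodule.coe_add, Pi.add_apply]
    ring
  map_smul' := by
    intro c a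
    funext d
    simp only [Submodule.coe_smul, Pi.smul_apply, smul_eq_mul, RingHom.id_apply]
    ring

/-- the cycle space of `H` -/
def cyB (H : Finset G.Dart) : Submodule K (G.Dart → K) where
  carrier := {z | (∀ d, z d.symm = z d) ∧ (∀ d, d ∉ H → z d = 0) ∧
    ∀ v, ∑ d, (if d.fst = v then z d else 0) = 0}
  zero_mem' := ⟨fun _ => rfl, fun _ _ => rfl, fun v => by simp⟩
  add_mem' := by
    rintro a b ⟨h1, h2, h3⟩ ⟨h4, h5, h6⟩
    refine ⟨fun d => ?_, fun d hd => ?_, fun v => ?_⟩
    · rw [Pi.add_apply, Pi.add_apply, h1, h4]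
    · rw [Pi.add_apply, h2 d hd, h5 d hd, add_zero]
    · have h7 : ∀ d : G.Dart, (if d.fst = v then (a + b) d else 0) =
          (if d.fst = v then a d else 0) + (if d.fst = v then b d else 0) := by
        intro d
        split_ifs
        · rfl
        · rw [add_zero]
      rw [Finset.sum_congr rfl fun d _ => h7 d, Finset.sum_add_distrib, h3, h6, add_zero]
  smul_mem' := by
    rintro c a ⟨h1, h2, h3⟩
    refine ⟨fun d => ?_, fun d hd => ?_, fun v => ?_⟩
    · rw [Pi.smul_apply, Pi.smul_apply, h1]
    · rw [Pi.smul_apply, h2 d hd, smul_zero]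
    · have h7 : ∀ d : G.Dart, (if d.fst = v then (c • a) d else 0) =
          c * (if d.fst = v then a d else 0) := by
        intro d
        split_ifs
        · rfl
        · rw [mul_zero]
      rw [Finset.sum_congr rfl fun d _ => h7 d, ← Finset.mul_sum, h3, mul_zero]

theorem h_symm {M : CMap G.Dart V} (hM : PlaneMap M) {h : G.Dart → K}
    (hh : ∀ d, h (M.φ d) = h d) (d : G.Dart) : h d.symm = h (M.σ d) := by
  have h1 := hh d.symm
  rw [CMap.φ_apply, hM.2.1, SimpleGraph.Dart.symm_symm] at h1
  exact h1.symm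

theorem range_bdA {M : CMap G.Dart V} (hM : PlaneMap M) {H : Finset G.Dart}
    (hH : ∀ d ∈ H, d.symm ∈ H) : LinearMap.range (bdA M H) = cyB H := by
  ext z
  constructor
  · rintro ⟨⟨h, hh⟩, rfl⟩
    rw [mem_cls] at hh
    refine ⟨fun d => ?_, fun d hd => ?_, fun v => ?_⟩
    · change h d.symm + h d.symm.symm = h d + h d.symm
      rw [SimpleGraph.Dart.symm_symm, add_comm]
    · change h d + h d.symm = 0
      rw [hh.2 d hd]
      exact CharTwo.add_self_eq_zero _
    · change ∑ d : G.Dart, (if d.fst = v then h d + h d.symm else 0) = 0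
      have h7 : ∀ d : G.Dart, (if d.fst = v then h d + h d.symm else 0) =
          (if d.fst = v then h d else 0) + (if (M.σ d).fst = v then h (M.σ d) else 0) := by
        intro d
        have h8 : (M.σ d).fst = d.fst := by
          rw [← hM.1, ← hM.1, M.hv]
          exact Perm.sameCycle_apply_left.2 (Perm.SameCycle.refl _ _)
        rw [h8, h_symm hM hh.1]
        split_ifs
        · rfl
        · rw [add_zero]
      rw [Finset.sum_congr rfl fun d _ => h7 d, Finset.sum_add_distrib,
        Equiv.sum_comp M.σ (fun d : G.Dart => if d.fst = v then h d else 0)]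
      exact CharTwo.add_self_eq_zero _
  · rintro ⟨h1, h2, h3⟩
    obtain ⟨h, hφ, hz⟩ := hM.2.2 z ⟨fun d => by rw [hM.2.1, h1], fun v =>
      (Finset.sum_congr rfl fun d _ => by rw [hM.1]).trans (h3 v)⟩
    have hz' : ∀ d, z d = h d + h d.symm := fun d => by rw [hz d, hM.2.1]
    have hcl : h ∈ cf (clsS M H) := by
      rw [mem_cls]
      refine ⟨hφ, fun d hd => ?_⟩
      have h4 := hz' d
      rw [h2 d hd] at h4
      exact (add_eq_zero_K.1 h4.symm).symm
    refine ⟨⟨h, hcl⟩, ?_⟩
    funext d
    exact (hz' d).symm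

/-- On a connected graph a function on darts which is invariant under `φ` and `symm` is constant. -/
theorem const_of {M : CMap G.Dart V} (hM : PlaneMap M) (hG : G.Connected) {h : G.Dart → K}
    (h1 : ∀ d, h (M.φ d) = h d) (h2 : ∀ d, h d.symm = h d) (d e : G.Dart) : h d = h e := by
  have hσ : ∀ d, h (M.σ d) = h d := fun d => by rw [← h_symm hM h1, h2]
  have hfst : ∀ d e : G.Dart, d.fst = e.fst → h d = h e := by
    intro d e hde
    rw [← hM.1, ← hM.1, M.hv] at hde
    exact PanD.eq_of_sameCycle hσ hde
  have key : ∀ v w : V, G.Walk v w → ∀ d e : G.Dart, d.fst = v → e.fst = w → h d = h e := by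
    intro v w p
    induction p with
    | nil =>
      intro d e hd he
      exact hfst d e (hd.trans he.symm)
    | cons hadj p ih =>
      intro d e hd he
      have e1 := hfst d ⟨⟨_, _⟩, hadj⟩ hd
      rw [e1, ← h2]
      exact ih _ e rfl he
  obtain ⟨p⟩ := hG.preconnected d.fst e.fst
  exact key _ _ p d e rfl rfl

theorem finrank_ker {M : CMap G.Dart V} (hM : PlaneMap M) (hG : G.Connected)
    (hne : Nonempty G.Dart) (H : Finset G.Dart) :
    Module.finrank K (LinearMap.ker (bdA M H)) = 1 := by
  obtain ⟨d₀⟩ := hne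
  have h1 : (fun _ => 1 : G.Dart → K) ∈ cf (clsS M H) := fun _ _ _ => rfl
  have h2 : (⟨_, h1⟩ : cf (clsS M H)) ∈ LinearMap.ker (bdA M H) := by
    rw [LinearMap.mem_ker]
    funext d
    change (1 : K) + 1 = 0
    exact CharTwo.add_self_eq_zero _
  refine finrank_eq_one (⟨_, h2⟩ : LinearMap.ker (bdA M H)) ?_ ?_
  · intro h
    have h3 := congrArg (fun x : LinearMap.ker (bdA M H) => ((x : cf (clsS M H)) : G.Dart → K) d₀) h
    exact one_ne_zero h3
  · rintro ⟨⟨h, hh⟩, hk⟩
    refine ⟨h d₀, ?_⟩
    apply Subtype.ext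
    apply Subtype.ext
    funext d
    change h d₀ * 1 = h d
    rw [mul_one]
    rw [mem_cls] at hh
    refine const_of hM hG hh.1 (fun d => ?_) d₀ d
    have h3 : h d + h d.symm = 0 := congrFun (LinearMap.mem_ker.1 hk) d
    exact (add_eq_zero_K.1 h3).symm

theorem ncls_eq {M : CMap G.Dart V} (hM : PlaneMap M) (hG : G.Connected)
    (hne : Nonempty G.Dart) {H : Finset G.Dart} (hH : ∀ d ∈ H, d.symm ∈ H) :
    ncls M H = Module.finrank K (cyB H) + 1 := by
  have h1 := LinearMap.finrank_range_add_finrank_ker (bdA M H)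
  rw [range_bdA hM hH, finrank_ker hM hG hne, finrank_cf] at h1
  exact h1.symm

/-- symmetric functions supported in `H` -/
def symH (H : Finset G.Dart) : Submodule K (G.Dart → K) where
  carrier := {z | (∀ d, z d.symm = z d) ∧ ∀ d, d ∉ H → z d = 0}
  zero_mem' := ⟨fun _ => rfl, fun _ _ => rfl⟩
  add_mem' := by
    rintro a b ⟨h1, h2⟩ ⟨h4, h5⟩
    refine ⟨fun d => ?_, fun d hd => ?_⟩
    · rw [Pi.add_apply, Pi.add_apply, h1, h4]
    · rw [Pi.add_apply, h2 d hd, h5 d hd, add_zero]
  smul_mem' := by
    rintro c a ⟨h1, h2⟩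
    refine ⟨fun d => ?_, fun d hd => ?_⟩
    · rw [Pi.smul_apply, Pi.smul_apply, h1]
    · rw [Pi.smul_apply, h2 d hd, smul_zero]

/-- `symm` on `H` -/
def aH {H : Finset G.Dart} (hH : ∀ d ∈ H, d.symm ∈ H) : Perm {d // d ∈ H} where
  toFun d := ⟨d.1.symm, hH _ d.2⟩
  invFun d := ⟨d.1.symm, hH _ d.2⟩
  left_inv d := Subtype.ext (SimpleGraph.Dart.symm_symm d.1)
  right_inv d := Subtype.ext (SimpleGraph.Dart.symm_symm d.1)

/-- an auxiliary map -/
def mH {H : Finset G.Dart} (hH : ∀ d ∈ H, d.symm ∈ H) : CMap {d // d ∈ H} {d // d ∈ H} where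
  σ := 1
  α := aH hH
  inv d := Subtype.ext (SimpleGraph.Dart.symm_symm d.1)
  fpf d h := d.1.symm_ne (congrArg Subtype.val h)
  vt := id
  hv d e := by
    rw [Perm.sameCycle_one]
    rfl

theorem finrank_symH {H : Finset G.Dart} (hH : ∀ d ∈ H, d.symm ∈ H) :
    2 * Module.finrank K (symH H) = H.card := by
  have h1 := two_nE (mH hH)
  rw [Fintype.card_coe] at h1
  rw [← h1]
  congr 1
  have h2 : Module.finrank K (iv (aH hH)) = (mH hH).nE := finrank_iv (aH hH)
  rw [← h2]
  let L : (symH H) ≃ₗ[K] (iv (aH hH)) :=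
    { toFun := fun z => ⟨fun d => (z : G.Dart → K) d.1, fun d => z.2.1 d.1⟩
      map_add' := fun _ _ => rfl
      map_smul' := fun _ _ => rfl
      invFun := fun w => ⟨fun d => if h : d ∈ H then (w : {d // d ∈ H} → K) ⟨d, h⟩ else 0, by
        refine ⟨fun d => ?_, fun d hd => dif_neg hd⟩
        by_cases hd : d ∈ H
        · have hd' := hH d hd
          simp only [dif_pos hd, dif_pos hd']
          exact w.2 ⟨d, hd⟩
        · have hd' : d.symm ∉ H := fun h => hd (by
            have := hH _ h
            rwa [SimpleGraph.Dart.symm_symm] at this)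
          simp only [dif_neg hd, dif_neg hd']⟩
      left_inv := by
        intro z
        apply Subtype.ext
        funext d
        by_cases hd : d ∈ H
        · exact dif_pos hd
        · exact (dif_neg hd).trans (z.2.2 d hd).symm
      right_inv := by
        intro w
        apply Subtype.ext
        funext d
        exact dif_pos d.2 }
  exact L.finrank_eq

/-- the pairing -/
def prH (H : Finset G.Dart) : (V → K) →ₗ[K] Module.Dual K (symH H) where
  toFun g :=
    { toFun := fun z => ∑ d : G.Dart, g d.fst * (z : G.Dart → K) d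
      map_add' := by
        intro a b
        simp only [Submodule.coe_add, Pi.add_apply, mul_add, Finset.sum_add_distrib]
      map_smul' := by
        intro c a
        simp only [Submodule.coe_smul, Pi.smul_apply, smul_eq_mul, RingHom.id_apply,
          Finset.mul_sum]
        refine Finset.sum_congr rfl fun d _ => ?_
        ring }
  map_add' := by
    intro a b
    refine LinearMap.ext fun z => ?_
    change ∑ d : G.Dart, (a + b) d.fst * (z : G.Dart → K) d =
      ∑ d : G.Dart, a d.fst * (z : G.Dart → K) d + ∑ d : G.Dart, b d.fst * (z : G.Dart → K) d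
    rw [← Finset.sum_add_distrib]
    refine Finset.sum_congr rfl fun d _ => ?_
    rw [Pi.add_apply, add_mul]
  map_smul' := by
    intro c a
    refine LinearMap.ext fun z => ?_
    change ∑ d : G.Dart, (c • a) d.fst * (z : G.Dart → K) d =
      c * ∑ d : G.Dart, a d.fst * (z : G.Dart → K) d
    rw [Finset.mul_sum]
    refine Finset.sum_congr rfl fun d _ => ?_
    rw [Pi.smul_apply, smul_eq_mul, mul_assoc]

theorem prH_apply (H : Finset G.Dart) (g : V → K) (z : symH H) :
    prH H g z = ∑ d : G.Dart, g d.fst * (z : G.Dart → K) d := rfl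

theorem ker_prH {H : Finset G.Dart} (hH : ∀ d ∈ H, d.symm ∈ H) :
    LinearMap.ker (prH H) = cf (cmpS H) := by
  classical
  ext g
  rw [mem_cmp, LinearMap.mem_ker]
  constructor
  · intro hk d hd
    have h1 : (fun x => if x = d ∨ x = d.symm then (1 : K) else 0) ∈ symH H := by
      refine ⟨fun x => ?_, fun x hx => ?_⟩
      · have h2 : (x.symm = d ∨ x.symm = d.symm) ↔ (x = d ∨ x = d.symm) := by
          constructor
          · rintro (h | h)
            · exact Or.inr (by rw [← h, SimpleGraph.Dart.symm_symm])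
            · exact Or.inl (by rw [← SimpleGraph.Dart.symm_symm x, h,
                SimpleGraph.Dart.symm_symm])
          · rintro (h | h)
            · exact Or.inr (by rw [h])
            · exact Or.inl (by rw [h, SimpleGraph.Dart.symm_symm])
        simp only [h2]
      · refine if_neg ?_
        rintro (h | h)
        · exact hx (h ▸ hd)
        · exact hx (h ▸ hH d hd)
    have h2 := LinearMap.congr_fun hk ⟨_, h1⟩
    rw [prH_apply] at h2
    have h3 : ∑ x : G.Dart, g x.fst * (if x = d ∨ x = d.symm then (1 : K) else 0) =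
        g d.fst + g d.snd := by
      have h4 : ∀ x : G.Dart, g x.fst * (if x = d ∨ x = d.symm then (1 : K) else 0) =
          (if x = d then g x.fst else 0) + (if x = d.symm then g x.fst else 0) := by
        intro x
        by_cases hx : x = d
        · have h5 : ¬ x = d.symm := fun h => d.symm_ne (h.symm.trans hx)
          rw [if_pos (Or.inl hx), if_pos hx, if_neg h5, mul_one, add_zero]
        · by_cases hx' : x = d.symm
          · rw [if_pos (Or.inr hx'), if_neg hx, if_pos hx', mul_one, zero_add]
          · rw [if_neg (by rintro (h | h) <;> contradiction), if_neg hx, if_neg hx', mul_zero,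
              add_zero]
      rw [Finset.sum_congr rfl fun x _ => h4 x, Finset.sum_add_distrib, Finset.sum_ite_eq',
        Finset.sum_ite_eq', if_pos (Finset.mem_univ _), if_pos (Finset.mem_univ _)]
      rfl
    have h4 : g d.fst + g d.snd = 0 := by
      rw [← h3]
      exact h2
    exact add_eq_zero_K.1 h4
  · intro hg
    refine LinearMap.ext fun z => ?_
    rw [prH_apply]
    change ∑ d : G.Dart, g d.fst * (z : G.Dart → K) d = 0
    refine Finset.sum_involution (fun d _ => d.symm) (fun d _ => ?_)
      (fun d _ _ => d.symm_ne) (fun d _ => Finset.mem_univ _)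
      (fun d _ => SimpleGraph.Dart.symm_symm d)
    have h1 : (z : G.Dart → K) d.symm = (z : G.Dart → K) d := z.2.1 d
    rw [h1]
    by_cases hd : d ∈ H
    · have h2 : g d.symm.fst = g d.fst := (hg d hd).symm
      rw [h2]
      exact CharTwo.add_self_eq_zero _
    · rw [z.2.2 d hd, mul_zero, mul_zero, add_zero]

theorem coann_prH (H : Finset G.Dart) :
    ((LinearMap.range (prH H)).dualCoannihilator).map (symH H).subtype = cyB H := by
  classical
  ext z
  constructor
  · rintro ⟨w, hw, rfl⟩
    have hw' : ∀ φ ∈ LinearMap.range (prH H), φ w = 0 := (Submodule.mem_dualCoannihilator w).1 hw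
    refine ⟨w.2.1, w.2.2, fun v => ?_⟩
    have h1 := hw' (prH H (fun x => if x = v then 1 else 0)) ⟨_, rfl⟩
    rw [prH_apply] at h1
    refine (Finset.sum_congr rfl fun d _ => ?_).trans h1
    by_cases hd : d.fst = v
    · rw [if_pos hd, if_pos hd, one_mul]
      rfl
    · rw [if_neg hd, if_neg hd, zero_mul]
  · rintro ⟨h1, h2, h3⟩
    refine ⟨⟨z, ⟨h1, h2⟩⟩, ?_, rfl⟩
    change (⟨z, ⟨h1, h2⟩⟩ : symH H) ∈ (LinearMap.range (prH H)).dualCoannihilator
    rw [Submodule.mem_dualCoannihilator]
    rintro _ ⟨g, rfl⟩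
    rw [prH_apply]
    change ∑ d : G.Dart, g d.fst * z d = 0
    calc ∑ d : G.Dart, g d.fst * z d =
        ∑ d : G.Dart, ∑ v, g v * (if d.fst = v then z d else 0) := by
          refine Finset.sum_congr rfl fun d _ => ?_
          simp only [mul_ite, mul_zero, Finset.sum_ite_eq, Finset.mem_univ, if_true]
      _ = ∑ v, g v * ∑ d : G.Dart, (if d.fst = v then z d else 0) := by
          rw [Finset.sum_comm]
          refine Finset.sum_congr rfl fun v _ => ?_
          rw [Finset.mul_sum]
      _ = 0 := Finset.sum_eq_zero fun v _ => by rw [h3, mul_zero]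

theorem finrank_cyB {H : Finset G.Dart} (hH : ∀ d ∈ H, d.symm ∈ H) :
    Module.finrank K (cyB H) + Fintype.card V = Module.finrank K (symH H) + ncmp H := by
  have h1 := LinearMap.finrank_range_add_finrank_ker (prH H)
  rw [ker_prH hH, finrank_cf, Module.finrank_fintype_fun_eq_card] at h1
  have h2 := Subspace.finrank_add_finrank_dualCoannihilator_eq (LinearMap.range (prH H))
  rw [← Submodule.finrank_map_subtype_eq _ (LinearMap.range (prH H)).dualCoannihilator,
    coann_prH] at h2
  have h3 : Nat.card (Quotient (cmpS H)) = ncmp H := rfl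
  rw [h3] at h1
  omega

end EulerSubAux

open EulerSubAux in
theorem tEulerSub : S_EulerSub := by
  intro V _ _ G _ M hM hG hne H hH
  have h1 := ncls_eq hM hG hne hH
  have h2 := finrank_cyB hH
  have h3 := finrank_symH hH
  omega

end C7
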