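import Pool.Agent.Lib.MP_86b854_co.Interface

set_option autoImplicit false

/-!
# MP_86b854_co : Euler's inequality for an induced subgraph
-/

namespace C7

open PLM T72 Finset Equiv

namespace EulerUAux

theorem card_cmp_ge {V : Type} [Fintype V] [DecidableEq V] (G : SimpleGraph V) [DecidableRel G.Adj]
    (U : Finset V) (u : V) (hu : u ∈ U) :
    Fintype.card V + 1 ≤ U.card + ncmp (dIn G U) := by
  classical
  -- the map from Option of the outside vertices to classes
  let f : Option {v : V // v ∉ U} → Quotient (cmpS (dIn G U)) := fun o =>
    match o with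
    | none => Quotient.mk _ u
    | some v => Quotient.mk _ v.1
  have hsing : ∀ v : V, v ∉ U → ∀ d ∈ dIn G U, d.fst ∈ ({v} : Set V) ↔ d.snd ∈ ({v} : Set V) := by
    intro v hv d hd
    simp only [dIn, mem_filter, mem_univ, true_and] at hd
    constructor
    · intro h
      rw [Set.mem_singleton_iff] at h
      exact absurd (h ▸ hd.1) hv
    · intro h
      rw [Set.mem_singleton_iff] at h
      exact absurd (h ▸ hd.2) hv
  have hf : Function.Injective f := by
    intro a b hab
    match a, b, hab with
    | none, none, _ => rfl
    | none, some v, hab =>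
      exfalso
      have h := Quotient.exact hab
      have h2 := (h {v.1} (hsing v.1 v.2)).mpr (Set.mem_singleton _)
      rw [Set.mem_singleton_iff] at h2
      exact v.2 (h2 ▸ hu)
    | some v, none, hab =>
      exfalso
      have h := Quotient.exact hab
      have h2 := (h {v.1} (hsing v.1 v.2)).mp (Set.mem_singleton _)
      rw [Set.mem_singleton_iff] at h2
      exact v.2 (h2 ▸ hu)
    | some v, some w, hab =>
      have h := Quotient.exact hab
      have h2 := (h {v.1} (hsing v.1 v.2)).mp (Set.mem_singleton _)
      rw [Set.mem_singleton_iff] at h2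
      exact congrArg some (Subtype.ext h2.symm)
  have h1 := Nat.card_le_card_of_injective f hf
  rw [Nat.card_eq_fintype_card, Fintype.card_option] at h1
  have h2 : Fintype.card {v : V // v ∉ U} = Fintype.card V - U.card := by
    rw [Fintype.card_subtype_compl, Fintype.card_coe]
  have h3 : U.card ≤ Fintype.card V := Finset.card_le_univ U
  rw [h2] at h1
  unfold ncmp
  omega

end EulerUAux

theorem tEulerU (h : S_EulerSub) : S_EulerU := by
  intro V _ _ G _ M hM hc hn U hU
  obtain ⟨u, hu⟩ := hU
  have h1 := EulerUAux.card_cmp_ge G U u hu
  have h2 := h V G M hM hc hn (dIn G U) (by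
    intro d hd
    simp only [dIn, mem_filter, mem_univ, true_and] at hd ⊢
    exact ⟨hd.2, hd.1⟩)
  omega

end C7
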