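import Pool.Agent.Lib.MP_86b854_co.Interface

set_option autoImplicit false

/-!
# MP_86b854_co : `S_Final`, the frozen statement from `NoMin`
-/

namespace C7

open PLM T72 Finset Equiv

theorem tFinal (hMinA : S_MinA) (hMinB : S_MinB) (hStep : S_ClosedStep) : S_Final := by
  intro hNo V _ G htri hdraw L hL
  classical
  have main : ∀ n : ℕ, ClosedN n ∧ ExtN n := by
    intro n
    induction n with
    | zero =>
      constructor
      · intro V _ _ G _ M hn _ _ L _
        have hE : IsEmpty V := Fintype.card_eq_zero_iff.1 (Nat.le_zero.1 hn)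
        exact ⟨fun _ => ∅, fun v _ => hE.elim v, fun v _ => hE.elim v⟩
      · intro V _ _ G _ M hn _ _ o P _ _ L g _ _
        have hE : IsEmpty V := Fintype.card_eq_zero_iff.1 (Nat.le_zero.1 hn)
        exact ⟨g, fun v _ => rfl, fun v _ => hE.elim v, fun v _ => hE.elim v⟩
    | succ n ih =>
      have hE : ExtN (n + 1) := by
        intro V _ _ G _ M hn hM htri o P ho hP L g hL hg
        by_contra hne
        obtain ⟨h1, h2⟩ := hMinA n ih.1 ih.2 V G M hn hM htri o P ho hP L g hL hg hne
        have h3 := hMinB n ih.2 V G M hn hM htri h2 o P hP L g h1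
        exact hNo V G M o L P g ⟨hM, h2, htri, hP, ho, hg, h1, h3⟩
      exact ⟨hStep n ih.1 hE, hE⟩
  obtain ⟨M, hM⟩ := plane_of_drawn V G hdraw
  obtain ⟨f, hf⟩ := (main (Fintype.card V)).1 V G M le_rfl hM htri L hL
  exact ⟨f, fun v => hf.1 v (mem_univ v), fun u v h => hf.2 u (mem_univ u) v (mem_univ v) h⟩

end C7
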