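import Pool.Agent.Lib.MP_86b854_co.Interface

set_option autoImplicit false

/-!
# MP_86b854_co : the boundary of a disc is a face of the inner map
-/

namespace C7

open PLM T72 Equiv

theorem InFace_fc_phi {D X : Type} (M : CMap D X) (x : D) : fc M (M.φ x) = fc M x :=
  (Quotient.sound (s := Perm.SameCycle.setoid M.φ) ⟨1, by simp⟩ : fc M x = fc M (M.φ x)).symm

theorem InFace_fst_phi {V : Type} [Fintype V] [DecidableEq V] {G : SimpleGraph V}
    [DecidableRel G.Adj] (M : CMap G.Dart V) (hM : PlaneMap M) (d : G.Dart) :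
    (M.φ d).fst = d.snd := by
  obtain ⟨hvt, hα, -⟩ := hM
  rw [CMap.φ_apply, ← hvt, hα]
  have e1 : M.vt (M.σ d.symm) = M.vt d.symm :=
    (M.hv _ _).2 (Perm.sameCycle_apply_left.2 (Perm.SameCycle.refl _ _))
  rw [e1, hvt]
  rfl

/-- adjacent vertices of a short cycle in a triangle-free graph are consecutive -/
theorem InFace_consec {V : Type} [DecidableEq V] {G : SimpleGraph V} (hG : G.CliqueFree 3) {k : ℕ}
    (h4 : 4 ≤ k) (h5 : k ≤ 5) (w : ZMod k → V) (hw : ∀ i, G.Adj (w i) (w (i + 1)))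
    {i j : ZMod k} (hij : G.Adj (w i) (w j)) : j = i + 1 ∨ i = j + 1 := by
  have htri : ∀ a b c : V, G.Adj a b → G.Adj b c → G.Adj a c → False := by
    intro a b c hab hbc hac
    exact hG {a, b, c} (SimpleGraph.is3Clique_iff.2 ⟨a, b, c, hab, hac, hbc, rfl⟩)
  obtain ⟨t, ht⟩ : ∃ t, t = j - i := ⟨_, rfl⟩
  have hj : j = i + t := by rw [ht]; ring
  have hk : k = 4 ∨ k = 5 := by omega
  have h0 : t ≠ 0 := by
    rintro rfl
    rw [hj, add_zero] at hij
    exact hij.ne rfl
  have h2 : t ≠ 2 := by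
    rintro rfl
    have h3 := hw (i + 1)
    have e : i + 1 + 1 = i + 2 := by ring
    rw [e] at h3
    rw [hj] at hij
    exact htri _ _ _ (hw i) h3 hij
  have h3 : t ≠ -2 := by
    rintro rfl
    rw [hj] at hij
    have a1 := hw (i + -2)
    have a2 := hw (i + -2 + 1)
    have e : i + -2 + 1 + 1 = i := by ring
    rw [e] at a2
    exact htri _ _ _ a1 a2 hij.symm
  have hcase : t = 1 ∨ t = -1 := by
    rcases hk with rfl | rfl
    · revert t
      intro t ht hj h0 h2 h3
      clear ht hj hij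
      revert t
      decide
    · revert t
      intro t ht hj h0 h2 h3
      clear ht hj hij
      revert t
      decide
  rcases hcase with h | h
  · left
    rw [hj, h]
  · right
    rw [hj, h]
    ring

theorem tInFace (hC : S_Corner) : S_InFace := by
  classical
  intro V _ _ G _ M hM hG Y M' hM' hup R k w hk4 hk5 hbd hY
  obtain ⟨hwinj, hwadj, hwbd⟩ := hbd
  haveI : NeZero k := ⟨by omega⟩
  have hbdm : ∀ x : G.Dart, x ∈ bd M R ↔ fc M x ∈ R ∧ fc M x.symm ∉ R := by
    intro x
    unfold bd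
    rw [Finset.mem_filter]
    exact ⟨fun h => h.2, fun h => ⟨Finset.mem_univ _, h⟩⟩
  have hinm : ∀ v, v ∈ inV M R ↔ ∀ d : G.Dart, d.fst = v → fc M d ∈ R := by
    intro v
    unfold inV
    rw [Finset.mem_filter]
    exact ⟨fun h => h.2, fun h => ⟨Finset.mem_univ _, h⟩⟩
  have hwY : ∀ i, w i ∈ Y := fun i => (hY _).2 (Or.inr ⟨i, rfl⟩)
  -- the darts of the boundary, reversed
  let b : ZMod k → (Gi G Y).Dart := fun i =>
    ⟨(⟨w (i + 1), hwY _⟩, ⟨w i, hwY _⟩), (hwadj i).symm⟩
  have hb1 : ∀ i, ((b i).fst : V) = w (i + 1) := fun i => rfl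
  have hb2 : ∀ i, ((b i).snd : V) = w i := fun i => rfl
  have hbinj : Function.Injective b := by
    intro i j hij
    apply hwinj
    rw [← hb2, ← hb2, hij]
  -- (1)
  have hB : ∀ d : (Gi G Y).Dart, fc M (up d) ∉ R ↔ ∃ i, d = b i := by
    intro d
    constructor
    · intro hd
      have hf : ∃ i, w i = (up d).fst := by
        rcases (hY (up d).fst).1 d.fst.2 with h | h
        · exact absurd ((hinm _).1 h (up d) rfl) hd
        · exact h
      have hs : ∃ i, w i = (up d).snd := by
        rcases (hY (up d).snd).1 d.snd.2 with h | h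
        · exact absurd (InFace_fc_phi M (up d) ▸
            (hinm _).1 h (M.φ (up d)) (InFace_fst_phi M hM (up d))) hd
        · exact h
      obtain ⟨i, hi⟩ := hf
      obtain ⟨j, hj⟩ := hs
      have hadj : G.Adj (w i) (w j) := by
        rw [hi, hj]
        exact (up d).adj
      rcases InFace_consec hG hk4 hk5 w hwadj hadj with h | h
      · exfalso
        have h1 : up d ∈ bd M R := (hwbd _).2 ⟨i, hi.symm, by rw [← h]; exact hj.symm⟩
        exact hd ((hbdm _).1 h1).1
      · refine ⟨j, ?_⟩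
        have e1 : d.fst = (b j).fst := by
          apply Subtype.ext
          rw [hb1, ← h, hi]
          rfl
        have e2 : d.snd = (b j).snd := by
          apply Subtype.ext
          rw [hb2, hj]
          rfl
        exact SimpleGraph.Dart.ext _ _ (Prod.ext e1 e2)
    · rintro ⟨i, rfl⟩ h
      have h1 : (up (b i)).symm ∈ bd M R := (hwbd _).2 ⟨i, rfl, rfl⟩
      have h2 := ((hbdm _).1 h1).2
      rw [SimpleGraph.Dart.symm_symm] at h2
      exact h2 h
  -- (2)
  have hA : ∀ d : (Gi G Y).Dart, fc M (up d) ∈ R → fc M (up (M'.φ d)) ∈ R := by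
    intro d hd
    have he : fc M (M.φ (up d)) ∈ R := by rwa [InFace_fc_phi]
    have hsnd : (M.φ (up d)).snd ∈ Y := by
      rw [hY]
      by_contra hcon
      push Not at hcon
      obtain ⟨hc1, hc2⟩ := hcon
      apply hc1
      rw [hinm]
      intro x hx
      have hc3 := (hC V G M hM R (M.φ (up d)).snd).2 (by
        intro y hy hy2
        obtain ⟨i, hi1, -⟩ := (hwbd y).1 hy
        exact hc2 i (by rw [← hi1, hy2])) x (M.φ (M.φ (up d))) hx
          (InFace_fst_phi M hM (M.φ (up d)))
      rw [hc3, InFace_fc_phi]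
      exact he
    rw [hup d hsnd]
    exact he
  -- (3)
  have hB2 : ∀ d : (Gi G Y).Dart, fc M (up d) ∉ R → fc M (up (M'.φ d)) ∉ R := by
    intro d hd hcon
    exact hd (PanD.SameCycle.mem_closed (x := M'.φ d) (y := d)
      (Perm.sameCycle_apply_left.2 (Perm.SameCycle.refl _ _))
      (S := {x : (Gi G Y).Dart | fc M (up x) ∈ R}) (fun z hz => hA z hz) hcon)
  -- (4)
  have hφb : ∀ i, M'.φ (b i) = b (i - 1) := by
    intro i
    obtain ⟨j, hj⟩ := (hB _).1 (hB2 (b i) ((hB _).2 ⟨i, rfl⟩))
    have h1 := InFace_fst_phi M' hM' (b i)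
    rw [hj] at h1
    have h2 : w (j + 1) = w i := by
      rw [← hb1, ← hb2, h1]
    have h3 := hwinj h2
    rw [hj]
    congr 1
    rw [← h3]
    ring
  have hcyc : ∀ n : ℕ, fc M' (b (-(n : ZMod k))) = fc M' (b 0) := by
    intro n
    induction n with
    | zero => simp
    | succ n ih =>
      have e : -(((n + 1 : ℕ)) : ZMod k) = -(n : ZMod k) - 1 := by
        push_cast
        ring
      rw [e, ← hφb, InFace_fc_phi, ih]
  have hcyc2 : ∀ i, fc M' (b i) = fc M' (b 0) := by
    intro i
    have h1 := hcyc (-i).val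
    rw [ZMod.natCast_zmod_val, neg_neg] at h1
    exact h1
  have hface : ∀ d, fc M' d = fc M' (b 0) ↔ ∃ i, d = b i := by
    intro d
    constructor
    · intro h
      have h1 : M'.φ.SameCycle (b 0) d := Quotient.exact h.symm
      rw [← hB]
      exact PanD.SameCycle.mem_closed h1 (S := {x | fc M (up x) ∉ R}) (fun z hz => hB2 z hz)
        ((hB _).2 ⟨0, rfl⟩)
    · rintro ⟨i, rfl⟩
      exact hcyc2 i
  refine ⟨fc M' (b 0), ?_, ?_⟩
  · have e : (Finset.univ.filter fun d => fc M' d = fc M' (b 0)) = Finset.univ.image b := by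
      ext d
      rw [Finset.mem_filter, Finset.mem_image, hface]
      constructor
      · rintro ⟨-, i, hi⟩
        exact ⟨i, Finset.mem_univ _, hi.symm⟩
      · rintro ⟨i, -, hi⟩
        exact ⟨Finset.mem_univ _, i, hi.symm⟩
    unfold len
    rw [e, Finset.card_image_of_injective _ hbinj, Finset.card_univ, ZMod.card]
  · intro v
    constructor
    · rintro ⟨d, hd1, hd2⟩
      obtain ⟨i, rfl⟩ := (hface d).1 hd2
      exact ⟨i + 1, by rw [← hb1, hd1]⟩
    · rintro ⟨i, hi⟩
      refine ⟨b (i - 1), ?_, hcyc2 _⟩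
      apply Subtype.ext
      rw [hb1, sub_add_cancel, hi]

end C7
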