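import Pool.Agent.Lib.MP_86b854_co.Interface

set_option autoImplicit false

/-!
# MP_86b854_co : plane maps for induced subgraphs
-/

namespace C7

open PLM Equiv

/-- transport of a map along a bijection of the darts, with new labels -/
theorem Ind_transport {D₁ D₂ X V : Type} [Fintype D₁] [Fintype D₂] [DecidableEq X] [DecidableEq V]
    (M₁ : CMap D₁ X) (c : D₂ ≃ D₁) (vt₂ : D₂ → V)
    (hvt : ∀ e e', vt₂ e = vt₂ e' ↔ M₁.vt (c e) = M₁.vt (c e')) :
    ∃ M₂ : CMap D₂ V, (∀ e, M₂.vt e = vt₂ e) ∧ (∀ e, c (M₂.α e) = M₁.α (c e)) ∧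
      (∀ e, c (M₂.σ e) = M₁.σ (c e)) ∧ (M₁.Planar → M₂.Planar) := by
  let σ₂ : Perm D₂ := c.trans (M₁.σ.trans c.symm)
  let α₂ : Perm D₂ := c.trans (M₁.α.trans c.symm)
  have hσ : ∀ e, c (σ₂ e) = M₁.σ (c e) := fun e => by simp [σ₂]
  have hα : ∀ e, c (α₂ e) = M₁.α (c e) := fun e => by simp [α₂]
  have hpow : ∀ (n : ℤ) (e : D₂), c ((σ₂ ^ n) e) = (M₁.σ ^ n) (c e) := by
    have h1 : ∀ n : ℤ, σ₂ ^ n = c.trans ((M₁.σ ^ n).trans c.symm) := by
      intro n
      have h2 : σ₂ = (c.symm.permCongrHom) M₁.σ := by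
        ext e; simp [σ₂, Equiv.permCongrHom]
      rw [h2, ← map_zpow]
      ext e; simp [Equiv.permCongrHom]
    intro n e
    rw [h1]; simp
  refine ⟨⟨σ₂, α₂, fun e => c.injective (by rw [hα, hα, M₁.inv]), fun e he => ?_, vt₂, fun e e' => ?_⟩,
    fun e => rfl, hα, hσ, fun hP z hz => ?_⟩
  · exact M₁.fpf (c e) (by rw [← hα, he])
  · rw [hvt, M₁.hv]
    constructor
    · rintro ⟨n, hn⟩
      exact ⟨n, c.injective (by rw [hpow, hn])⟩
    · rintro ⟨n, hn⟩
      exact ⟨n, by rw [← hpow, hn]⟩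
  · obtain ⟨h, h1, h2⟩ := hP (fun y => z (c.symm y)) ⟨fun y => by
      have h3 := hz.1 (c.symm y)
      have h4 : α₂ (c.symm y) = c.symm (M₁.α y) := c.injective (by rw [hα]; simp)
      change z (α₂ (c.symm y)) = _ at h3
      rw [h4] at h3
      exact h3, fun x => by
      rw [← Equiv.sum_comp c]
      by_cases hx : ∃ e, M₁.vt (c e) = x
      · obtain ⟨e₀, he₀⟩ := hx
        have h3 := hz.2 (vt₂ e₀)
        refine Eq.trans (Finset.sum_congr rfl fun e _ => ?_) h3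
        change (if M₁.vt (c e) = x then z (c.symm (c e)) else 0) = if vt₂ e = vt₂ e₀ then z e else 0
        rw [Equiv.symm_apply_apply]
        by_cases h4 : M₁.vt (c e) = x
        · rw [if_pos h4, if_pos ((hvt e e₀).2 (h4.trans he₀.symm))]
        · rw [if_neg h4, if_neg fun h5 => h4 (((hvt e e₀).1 h5).trans he₀)]
      · refine Finset.sum_eq_zero fun e _ => ?_
        rw [if_neg fun h4 => hx ⟨e, h4⟩]⟩
    refine ⟨fun e => h (c e), fun e => ?_, fun e => ?_⟩
    · change h (c (σ₂ (α₂ e))) = _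
      rw [hσ, hα]
      exact h1 (c e)
    · have h3 := h2 (c e)
      simp only [Equiv.symm_apply_apply] at h3
      change z e = h (c e) + h (c (α₂ e))
      rw [h3, hα]

theorem tInd : S_Ind := by
  classical
  intro V _ _ G _ M hM Y
  obtain ⟨hvt, hα, hpl⟩ := hM
  let P : Set G.Dart := {d | d.fst ∈ Y ∧ d.snd ∈ Y}
  haveI : Fintype P := Fintype.ofFinite _
  obtain ⟨M₁, h1, h2, h3, h4⟩ := aSub G.Dart V M P (by
    intro x hx
    rw [hα]
    exact ⟨hx.2, hx.1⟩)
  let c : (Gi G Y).Dart ≃ P :=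
    { toFun := fun d => ⟨up d, d.fst.2, d.snd.2⟩
      invFun := fun e => ⟨(⟨(e : G.Dart).fst, e.2.1⟩, ⟨(e : G.Dart).snd, e.2.2⟩), (e : G.Dart).adj⟩
      left_inv := fun d => rfl
      right_inv := fun e => rfl }
  have hc : ∀ d, ((c d : P) : G.Dart) = up d := fun d => rfl
  obtain ⟨M₂, g1, g2, g3, g4⟩ := Ind_transport M₁ c (fun d : (Gi G Y).Dart => d.fst)
    (fun e e' => by
      rw [h2, h2, hc, hc, hvt, hvt]
      constructor
      · intro h
        exact congrArg Subtype.val h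
      · intro h
        exact Subtype.ext h)
  have hα2 : ∀ d, M₂.α d = d.symm := by
    intro d
    apply c.injective
    rw [g2]
    apply Subtype.ext
    rw [h1, hc, hα, hc]
    rfl
  refine ⟨M₂, ⟨g1, hα2, g4 (h4 hpl)⟩, ?_⟩
  intro d hd
  -- the dart after `d.symm`
  have hfst : (M.φ (up d)).fst = (up d).snd := by
    rw [CMap.φ_apply, ← hvt, hα]
    have e1 : M.vt (M.σ (up d).symm) = M.vt (up d).symm :=
      (M.hv _ _).2 (Perm.sameCycle_apply_left.2 (Perm.SameCycle.refl _ _))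
    rw [e1, hvt]
    rfl
  have hmem : M.φ (up d) ∈ P := by
    refine ⟨?_, hd⟩
    rw [hfst]
    exact d.snd.2
  obtain ⟨n, hn1, hn2⟩ := h3 (M₁.α (c d))
  have hn : n = 0 := by
    by_contra hn0
    have h5 := hn2 0 (by omega)
    apply h5
    rw [h1, hc, zero_add, pow_one]
    exact hmem
  rw [hn, h1, hc, zero_add, pow_one] at hn1
  have e2 : c (M₂.φ d) = M₁.σ (M₁.α (c d)) := by
    rw [CMap.φ_apply, g3, g2]
  rw [← hc, e2, hn1]
  rfl

end C7
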