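import Pool.Agent.Lib.MP_86b854_co.Interface

set_option autoImplicit false

/-!
# MP_86b854_co : `S_IndFace`, faces of the induced map
-/

namespace C7

open PLM T72 Finset Equiv

namespace IndFaceAux

variable {V : Type} [Fintype V] [DecidableEq V] {G : SimpleGraph V} [DecidableRel G.Adj]

theorem up_inj {Y : Finset V} {d e : (Gi G Y).Dart} (h : up d = up e) : d = e := by
  have h1 := congrArg (fun z : G.Dart => z.fst) h
  have h2 := congrArg (fun z : G.Dart => z.snd) h
  apply SimpleGraph.Dart.ext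
  apply Prod.ext
  · exact Subtype.ext h1
  · exact Subtype.ext h2

theorem exists_up {Y : Finset V} {e : G.Dart} (h1 : e.fst ∈ Y) (h2 : e.snd ∈ Y) :
    ∃ d : (Gi G Y).Dart, up d = e :=
  ⟨⟨(⟨e.fst, h1⟩, ⟨e.snd, h2⟩), e.adj⟩, rfl⟩

end IndFaceAux

open IndFaceAux in
theorem tIndFace : S_IndFace := by
  intro V _ _ G _ M hM Y M' hM' hup f hf
  have hphi : ∀ d : G.Dart, (M.φ d).fst = d.snd := by
    intro d
    have h := (M.hv (M.σ (M.α d)) (M.α d)).2
      (Perm.sameCycle_apply_left.2 (Perm.SameCycle.refl _ _))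
    rw [hM.1, hM.1] at h
    rw [CMap.φ_apply, h, hM.2.1]
    rfl
  have hfc : ∀ d : G.Dart, fc M (M.φ d) = fc M d := by
    intro d
    exact Quotient.sound (s := Perm.SameCycle.setoid M.φ)
      (Perm.sameCycle_apply_left.2 (Perm.SameCycle.refl _ _))
  have hfc' : ∀ d, fc M' (M'.φ d) = fc M' d := by
    intro d
    exact Quotient.sound (s := Perm.SameCycle.setoid M'.φ)
      (Perm.sameCycle_apply_left.2 (Perm.SameCycle.refl _ _))
  have hin : ∀ d : G.Dart, fc M d = f → d.fst ∈ Y ∧ d.snd ∈ Y := by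
    intro d hd
    refine ⟨hf _ ⟨d, rfl, hd⟩, ?_⟩
    rw [← hphi d]
    exact hf _ ⟨M.φ d, rfl, (hfc d).trans hd⟩
  have hst : ∀ d, fc M (up d) = f → up (M'.φ d) = M.φ (up d) := by
    intro d hd
    exact hup d (hin _ ((hfc _).trans hd)).2
  obtain ⟨e₀, he₀⟩ : ∃ e : G.Dart, fc M e = f := by
    induction f using Quotient.inductionOn with
    | _ e => exact ⟨e, rfl⟩
  obtain ⟨d₀, hd₀⟩ := exists_up (hin e₀ he₀).1 (hin e₀ he₀).2
  have key : ∀ d, fc M' d = fc M' d₀ ↔ fc M (up d) = f := by
    intro d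
    constructor
    · intro h
      have h1 : M'.φ.SameCycle d₀ d := Quotient.exact (s := Perm.SameCycle.setoid M'.φ) h.symm
      refine PanD.SameCycle.mem_closed h1 (S := {x | fc M (up x) = f}) ?_ ?_
      · intro z hz
        show fc M (up (M'.φ z)) = f
        rw [hst z hz, hfc]
        exact hz
      · show fc M (up d₀) = f
        rw [hd₀, he₀]
    · intro h
      have h1 : M.φ.SameCycle e₀ (up d) :=
        Quotient.exact (s := Perm.SameCycle.setoid M.φ) (he₀.trans h.symm)
      have h2 := PanD.SameCycle.mem_closed h1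
        (S := {e | fc M e = f ∧ ∀ x, up x = e → fc M' x = fc M' d₀}) (by
        rintro z ⟨hz1, hz2⟩
        refine ⟨(hfc z).trans hz1, ?_⟩
        intro x hx
        obtain ⟨y, hy⟩ := exists_up (hin z hz1).1 (hin z hz1).2
        have h3 : x = M'.φ y := by
          apply up_inj
          rw [hx, hst y (by rw [hy, hz1]), hy]
        rw [h3, hfc']
        exact hz2 y hy) ⟨he₀, by
        intro x hx
        rw [up_inj (hx.trans hd₀.symm)]⟩
      exact h2.2 d rfl
  refine ⟨fc M' d₀, key, ?_, ?_⟩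
  · refine card_bij (fun d _ => up d) ?_ ?_ ?_
    · intro d hd
      rw [mem_filter] at hd ⊢
      exact ⟨mem_univ _, (key d).1 hd.2⟩
    · intro d _ e _ h
      exact up_inj h
    · intro e he
      rw [mem_filter] at he
      obtain ⟨d, hd⟩ := exists_up (hin e he.2).1 (hin e he.2).2
      refine ⟨d, ?_, hd⟩
      rw [mem_filter]
      refine ⟨mem_univ _, (key d).2 ?_⟩
      rw [hd]
      exact he.2
  · intro v
    constructor
    · rintro ⟨d, hd, hd'⟩
      exact ⟨up d, congrArg Subtype.val hd, (key d).1 hd'⟩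
    · rintro ⟨e, he, he'⟩
      obtain ⟨d, hd⟩ := exists_up (hin e he').1 (hin e he').2
      refine ⟨d, ?_, (key d).2 (by rw [hd]; exact he')⟩
      apply Subtype.ext
      rw [← he, ← hd]
      rfl

end C7
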