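import Pool.Agent.Lib.MP_86b854_co.Interface

set_option autoImplicit false

/-!
# MP_86b854_co : `S_Jordan`. Every cycle is the boundary of a region which avoids a given face.
-/

namespace C7

open PLM T72 Finset Equiv

variable {V : Type} [Fintype V] [DecidableEq V] {G : SimpleGraph V} [DecidableRel G.Adj]

private lemma jd_two {k : ℕ} (hk : 3 ≤ k) (i j : ZMod k) (h1 : i = j + 1) (h2 : i + 1 = j) :
    False := by
  have h3 : ((2 : ℕ) : ZMod k) = 0 := by
    have h4 : j + 1 + 1 = j := by rw [← h1, h2]
    have h5 : j + (1 + 1) = j + 0 := by rw [← add_assoc, h4, add_zero]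
    have h6 := add_left_cancel h5
    push_cast
    rw [← one_add_one_eq_two]
    exact h6
  rw [ZMod.natCast_eq_zero_iff] at h3
  have := Nat.le_of_dvd (by norm_num) h3
  omega

private lemma jd_const {k : ℕ} [NeZero k] (b : ZMod k → Prop) (h : ∀ i, b i ↔ b (i + 1)) (i : ZMod k) :
    b i ↔ b 0 := by
  have h1 : ∀ n : ℕ, b (n : ZMod k) ↔ b 0 := by
    intro n
    induction n with
    | zero => rw [Nat.cast_zero]
    | succ n ih => rw [Nat.cast_succ, ← h, ih]
  have h2 := h1 i.val
  rwa [ZMod.natCast_zmod_val] at h2

theorem tJordan (hC : S_Corner) : S_Jordan := by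
  classical
  intro V _ _ G _ M hM o k w hk hw hadj
  obtain ⟨hvt, hal, hpl⟩ := hM
  have : NeZero k := ⟨by omega⟩
  let e : ZMod k → G.Dart := fun i => ⟨(w i, w (i + 1)), hadj i⟩
  have he : Function.Injective e := by
    intro i j hij
    exact hw (congrArg (fun d : G.Dart => d.fst) hij)
  have hes : ∀ i j, e i ≠ (e j).symm := by
    intro i j hij
    have h1 : w i = w (j + 1) := congrArg (fun d : G.Dart => d.fst) hij
    have h2 : w (i + 1) = w j := congrArg (fun d : G.Dart => d.snd) hij
    exact jd_two hk i j (hw h1) (hw h2)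
  let z : G.Dart → ZMod 2 := fun d =>
    ∑ i, ((if d = e i then 1 else 0) + (if d = (e i).symm then 1 else 0))
  have hze : ∀ i, z (e i) = 1 := by
    intro i
    show ∑ j, ((if e i = e j then (1 : ZMod 2) else 0) + (if e i = (e j).symm then 1 else 0)) = 1
    rw [Finset.sum_eq_single i]
    · rw [if_pos rfl, if_neg (hes i i), add_zero]
    · intro j _ hj
      rw [if_neg (fun h => hj (he h).symm), if_neg (hes i j), add_zero]
    · intro h
      exact absurd (Finset.mem_univ i) h
  have hzs : ∀ d, z d.symm = z d := by
    intro d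
    refine Finset.sum_congr rfl fun i _ => ?_
    have h1 : d.symm = e i ↔ d = (e i).symm :=
      ⟨fun h => by rw [← h, SimpleGraph.Dart.symm_symm], fun h => by rw [h, SimpleGraph.Dart.symm_symm]⟩
    have h2 : d.symm = (e i).symm ↔ d = e i :=
      ⟨fun h => by rw [← SimpleGraph.Dart.symm_symm d, h, SimpleGraph.Dart.symm_symm], fun h => by rw [h]⟩
    simp only [h1, h2]
    rw [add_comm]
  have hz0 : ∀ d, (∀ i, d ≠ e i ∧ d ≠ (e i).symm) → z d = 0 := by
    intro d hd
    refine Finset.sum_eq_zero fun i _ => ?_
    rw [if_neg (hd i).1, if_neg (hd i).2, add_zero]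
  have hcyc : M.Cyc z := by
    refine ⟨fun d => by rw [hal, hzs], fun x => ?_⟩
    have h1 : ∀ d : G.Dart, (if M.vt d = x then z d else 0) =
        ∑ i, ((if d = e i then (if w i = x then (1 : ZMod 2) else 0) else 0) +
          (if d = (e i).symm then (if w (i + 1) = x then 1 else 0) else 0)) := by
      intro d
      rw [hvt]
      by_cases hd : d.fst = x
      · rw [if_pos hd]
        refine Finset.sum_congr rfl fun i _ => ?_
        congr 1
        · by_cases h : d = e i
          · have : w i = x := by
              rw [← hd, h]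
            rw [if_pos h, if_pos h, if_pos this]
          · rw [if_neg h, if_neg h]
        · by_cases h : d = (e i).symm
          · have : w (i + 1) = x := by
              rw [← hd, h]
              rfl
            rw [if_pos h, if_pos h, if_pos this]
          · rw [if_neg h, if_neg h]
      · rw [if_neg hd]
        symm
        refine Finset.sum_eq_zero fun i _ => ?_
        have h2 : (if d = e i then (if w i = x then (1 : ZMod 2) else 0) else 0) = 0 := by
          by_cases h : d = e i
          · have : w i ≠ x := by
              intro h3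
              apply hd
              rw [h, ← h3]
            rw [if_pos h, if_neg this]
          · rw [if_neg h]
        have h3 : (if d = (e i).symm then (if w (i + 1) = x then (1 : ZMod 2) else 0) else 0) = 0 := by
          by_cases h : d = (e i).symm
          · have : w (i + 1) ≠ x := by
              intro h3
              apply hd
              rw [h, ← h3]
              rfl
            rw [if_pos h, if_neg this]
          · rw [if_neg h]
        rw [h2, h3, add_zero]
    rw [Finset.sum_congr rfl fun d _ => h1 d, Finset.sum_comm]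
    simp only [Finset.sum_add_distrib, Finset.sum_ite_eq', Finset.mem_univ, if_true]
    have h2 : ∑ i : ZMod k, (if w (i + 1) = x then (1 : ZMod 2) else 0) =
        ∑ i : ZMod k, (if w i = x then (1 : ZMod 2) else 0) :=
      Fintype.sum_equiv (Equiv.addRight 1) _ _ fun i => rfl
    rw [h2]
    exact CharTwo.add_self_eq_zero _
  obtain ⟨h, hh1, hh2⟩ := hpl z hcyc
  have hfc : ∀ d d' : G.Dart, M.φ.SameCycle d d' → h d = h d' :=
    fun d d' hd => PanD.eq_of_sameCycle hh1 hd
  let q : Fc M → ZMod 2 := Quotient.lift h hfc
  have hq : ∀ d, q (fc M d) = h d := fun d => rfl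
  let R : Finset (Fc M) := Finset.univ.filter fun f => q f ≠ q o
  have hR : ∀ d, fc M d ∈ R ↔ h d ≠ q o := by
    intro d
    show fc M d ∈ Finset.univ.filter (fun f => q f ≠ q o) ↔ _
    rw [Finset.mem_filter, hq]
    simp
  have ho : o ∉ R := by
    intro h1
    exact (Finset.mem_filter.mp h1).2 rfl
  have hK : ∀ a b c : ZMod 2, a + b = 1 → ((a ≠ c) ↔ ¬ (b ≠ c)) := by decide
  have hK' : ∀ a b c : ZMod 2, a + b = 0 → ((a ≠ c) ↔ (b ≠ c)) := by decide
  have hxor : ∀ i, (fc M (e i) ∈ R ↔ ¬ fc M (e i).symm ∈ R) := by
    intro i
    rw [hR, hR]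
    have h1 := hh2 (e i)
    rw [hze, hal] at h1
    exact hK _ _ _ h1.symm
  have hmem : ∀ d, d ∈ bd M R → ∃ i, d = e i ∨ d = (e i).symm := by
    intro d hd
    by_contra hcon
    push Not at hcon
    have h1 := hh2 d
    rw [hz0 d hcon, hal] at h1
    have h2 := hK' _ _ (q o) h1.symm
    rw [← hR, ← hR] at h2
    have h3 := (Finset.mem_filter.mp hd).2
    exact h3.2 (h2.mp h3.1)
  have hbd : ∀ d, d ∈ bd M R ↔ fc M d ∈ R ∧ fc M d.symm ∉ R := by
    intro d
    unfold bd
    rw [Finset.mem_filter]
    simp
  have hb1 : ∀ i, e i ∈ bd M R ↔ fc M (e i) ∈ R := by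
    intro i
    rw [hbd]
    have := hxor i
    tauto
  have hb2 : ∀ i, (e i).symm ∈ bd M R ↔ ¬ fc M (e i) ∈ R := by
    intro i
    rw [hbd, SimpleGraph.Dart.symm_symm]
    have := hxor i
    tauto
  have hstep : ∀ i, (e i ∈ bd M R ↔ e (i + 1) ∈ bd M R) := by
    intro i
    have hcorn := (hC V G M ⟨hvt, hal, hpl⟩ R (w (i + 1))).1
    constructor
    · intro h1
      by_contra h2
      have h3 : ((bd M R).filter fun d => d.fst = w (i + 1)) = ∅ := by
        rw [Finset.filter_eq_empty_iff]
        intro d hd hdf
        obtain ⟨j, hj | hj⟩ := hmem d hd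
        · rw [hj] at hdf hd
          have : j = i + 1 := hw hdf
          rw [this] at hd
          exact h2 hd
        · rw [hj] at hdf hd
          have : j + 1 = i + 1 := hw hdf
          have h4 : j = i := add_right_cancel this
          rw [h4, hb2, ← hb1] at hd
          exact hd h1
      rw [h3, Finset.card_empty] at hcorn
      have h5 := Finset.card_eq_zero.mp hcorn.symm
      rw [Finset.filter_eq_empty_iff] at h5
      exact h5 h1 rfl
    · intro h1
      by_contra h2
      have h3 : ((bd M R).filter fun d => d.snd = w (i + 1)) = ∅ := by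
        rw [Finset.filter_eq_empty_iff]
        intro d hd hdf
        obtain ⟨j, hj | hj⟩ := hmem d hd
        · rw [hj] at hdf hd
          have : j + 1 = i + 1 := hw hdf
          have h4 : j = i := add_right_cancel this
          rw [h4] at hd
          exact h2 hd
        · rw [hj] at hdf hd
          have : j = i + 1 := hw hdf
          rw [this, hb2, ← hb1] at hd
          exact hd h1
      rw [h3, Finset.card_empty] at hcorn
      have h5 := Finset.card_eq_zero.mp hcorn
      rw [Finset.filter_eq_empty_iff] at h5
      exact h5 h1 rfl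
  have hconst := jd_const (fun i => e i ∈ bd M R) hstep
  refine ⟨R, ho, ?_⟩
  by_cases h0 : e 0 ∈ bd M R
  · left
    refine ⟨hw, hadj, fun d => ?_⟩
    constructor
    · intro hd
      obtain ⟨j, hj | hj⟩ := hmem d hd
      · exact ⟨j, by rw [hj], by rw [hj]⟩
      · exfalso
        rw [hj, hb2, ← hb1] at hd
        exact hd ((hconst j).mpr h0)
    · rintro ⟨i, h1, h2⟩
      have h3 : d = e i := SimpleGraph.Dart.ext _ _ (Prod.ext h1 h2)
      rw [h3]
      exact (hconst i).mpr h0
  · right
    refine ⟨fun i j hij => neg_injective (hw hij), fun i => ?_, fun d => ?_⟩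
    · have h1 := (hadj (-(i + 1))).symm
      have h2 : -(i + 1) + 1 = -i := by ring
      rw [h2] at h1
      exact h1
    · constructor
      · intro hd
        obtain ⟨j, hj | hj⟩ := hmem d hd
        · exfalso
          rw [hj] at hd
          exact h0 ((hconst j).mp hd)
        · refine ⟨-(j + 1), ?_, ?_⟩
          · show d.fst = w (-(-(j + 1)))
            rw [neg_neg, hj]
            rfl
          · show d.snd = w (-(-(j + 1) + 1))
            have h2 : -(-(j + 1) + 1) = j := by ring
            rw [h2, hj]
            rfl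
      · rintro ⟨i, h1, h2⟩
        have h1' : d.fst = w (-i) := h1
        have h2' : d.snd = w (-(i + 1)) := h2
        have h4 : -(i + 1) + 1 = -i := by ring
        have h3 : d = (e (-(i + 1))).symm := by
          refine SimpleGraph.Dart.ext _ _ (Prod.ext ?_ ?_)
          · show d.fst = w (-(i + 1) + 1)
            rw [h4, h1']
          · exact h2'
        rw [h3, hb2, ← hb1]
        intro h5
        exact h0 ((hconst _).mp h5)

end C7
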