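import Pool.Agent.Lib.MP_86b854_co.D.ColAux

set_option autoImplicit false

/-!
# MP_86b854_co : MinA
-/

namespace C7

open PLM T72 Finset Equiv ColAux

theorem tMinA (hInd : S_Ind) (hIF : S_IndFace) : S_MinA := by
  intro n hcl hext V _ _ G _ M hV hM htri o P hlen hP L g hL hg hnot
  have hcex : MinCex G L P g := by
    refine ⟨hL, fun S hS hSP => ?_, hnot⟩
    obtain ⟨M', hM', hφ⟩ := hInd V G M hM Sᶜ
    have hPY : P ⊆ Sᶜ := fun v hv => by
      rw [mem_compl]
      exact fun h => Finset.disjoint_left.1 hSP h hv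
    obtain ⟨o', h1, h2, h3⟩ := hIF V G M hM Sᶜ M' hM' hφ o (fun v hv => hPY ((hP v).2 hv))
    have hc : Sᶜ.card ≤ n := by
      have := card_compl_add_card S
      have := hS.card_pos
      omega
    exact ext_sub hext htri hc hM' (by rw [h2]; exact hlen) hPY
      (fun v => by rw [h3, hP]) (fun v _ hv => hL v hv) hg
  refine ⟨hcex, ?_⟩
  obtain ⟨d₀, hd₀⟩ : ∃ d : G.Dart, fc M d = o := Quotient.exists_rep o
  set p : V := d₀.fst with hp
  have hPr : ∀ v ∈ P, G.Reachable p v := by
    intro v hv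
    obtain ⟨e, rfl, he⟩ := (hP v).1 hv
    have h1 : M.φ.SameCycle d₀ e := Quotient.exact (hd₀.trans he.symm)
    refine PanD.SameCycle.mem_closed (S := {x : G.Dart | G.Reachable p x.fst}) h1 ?_ ?_
    · intro z hz
      show G.Reachable p (M.φ z).fst
      rw [phi_fst hM]
      exact SimpleGraph.Reachable.trans hz z.adj.reachable
    · exact SimpleGraph.Reachable.refl _
  by_contra hcon
  classical
  have hB : ∃ v, ¬ G.Reachable p v := by
    by_contra h
    push Not at h
    exact hcon ((SimpleGraph.connected_iff _).2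
      ⟨fun u v => (h u).symm.trans (h v), ⟨p⟩⟩)
  obtain ⟨v₀, hv₀⟩ := hB
  set B : Finset V := univ.filter fun v => ¬ G.Reachable p v with hBdef
  have hpB : p ∉ B := by
    rw [hBdef, mem_filter]
    exact fun h => h.2 (SimpleGraph.Reachable.refl _)
  have hBP : Disjoint B P := by
    rw [Finset.disjoint_left]
    intro v hv hvP
    exact (mem_filter.1 hv).2 (hPr v hvP)
  have hBn : B.card ≤ n := by
    have : B.card < Fintype.card V := Finset.card_lt_univ_of_notMem hpB
    omega
  obtain ⟨f₁, hf₁⟩ := closed_sub hInd hcl hM htri hBn (L := L)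
    (fun v hv => hL v (Finset.disjoint_left.1 hBP hv))
  obtain ⟨f₀, hf₀, hf₀'⟩ := hcex.ext B ⟨v₀, mem_filter.2 ⟨mem_univ _, hv₀⟩⟩ hBP
  refine hnot ⟨_, fun v hv => ?_, glue hf₁ hf₀' (fun v hv => mem_compl.2 hv)
    (fun v hv hv' => absurd hv (mem_compl.1 hv')) (fun u v hu hv huv => ?_)⟩
  · show (if v ∈ B then f₁ v else f₀ v) = g v
    rw [if_neg (Finset.disjoint_right.1 hBP hv)]
    exact hf₀ v hv
  · rw [mem_compl, not_not] at hu
    refine hv (mem_filter.2 ⟨mem_univ _, fun h => ?_⟩)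
    exact (mem_filter.1 hu).2 (h.trans huv.symm.reachable)

end C7
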