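import Pool.Agent.Lib.MP_86b854_co.D.ColAux

set_option autoImplicit false
set_option linter.unusedSectionVars false

/-!
# MP_86b854_co : MinB
-/

namespace C7

open PLM T72 Finset Equiv ColAux

namespace MinBAux

variable {V : Type} [Fintype V] [DecidableEq V] {G : SimpleGraph V} [DecidableRel G.Adj]

omit [Fintype V] [DecidableRel G.Adj] in
theorem no_tri (htri : G.CliqueFree 3) {a b c : V} (h1 : G.Adj a b) (h2 : G.Adj b c)
    (h3 : G.Adj a c) : False :=
  htri {a, b, c} (SimpleGraph.is3Clique_triple_iff.2 ⟨h1, h3, h2⟩)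

omit [Fintype V] [DecidableRel G.Adj] in
theorem consec (htri : G.CliqueFree 3) {k : ℕ} (h4 : 4 ≤ k) (h5 : k ≤ 5) {w : ZMod k → V}
    (hadj : ∀ i, G.Adj (w i) (w (i + 1))) {i j : ZMod k} (h : G.Adj (w i) (w j)) :
    j = i + 1 ∨ i = j + 1 := by
  have hk : k = 4 ∨ k = 5 := by omega
  obtain ⟨m, rfl⟩ : ∃ m, j = i + m := ⟨j - i, by ring⟩
  have t2 : m = 2 → False := fun hm => by
    subst hm
    have h1 := hadj i
    have h2 := hadj (i + 1)
    rw [show i + 1 + 1 = i + 2 by ring] at h2
    exact no_tri htri h1 h2 h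
  rcases hk with rfl | rfl
  · have hm : ∀ m : ZMod 4, m = 0 ∨ m = 1 ∨ m = 2 ∨ m = 3 := by decide
    rcases hm m with hm | hm | hm | hm
    · subst hm
      rw [add_zero] at h
      exact absurd h (G.irrefl)
    · exact Or.inl (by rw [hm])
    · exact absurd hm t2
    · refine Or.inr ?_
      rw [hm, add_assoc, show (3 : ZMod 4) + 1 = 0 by decide, add_zero]
  · have hm : ∀ m : ZMod 5, m = 0 ∨ m = 1 ∨ m = 2 ∨ m = 3 ∨ m = 4 := by decide
    rcases hm m with hm | hm | hm | hm | hm
    · subst hm
      rw [add_zero] at h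
      exact absurd h (G.irrefl)
    · exact Or.inl (by rw [hm])
    · exact absurd hm t2
    · exfalso
      subst hm
      have h1 := hadj (i + 3)
      have h2 := hadj (i + 3 + 1)
      rw [show i + 3 + 1 + 1 = i by
        rw [add_assoc, add_assoc, show (3 : ZMod 5) + (1 + 1) = 0 by decide, add_zero]] at h2
      exact no_tri htri h1 h2 h.symm
    · refine Or.inr ?_
      rw [hm, add_assoc, show (4 : ZMod 5) + 1 = 0 by decide, add_zero]

/-- the sum of the lengths of the faces of a region -/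
theorem sum_len (M : CMap G.Dart V) (R : Finset (Fc M)) :
    ∑ f ∈ R, len M f = (univ.filter fun d : G.Dart => fc M d ∈ R).card := by
  rw [Finset.card_eq_sum_card_fiberwise (s := univ.filter fun d : G.Dart => fc M d ∈ R)
    (f := fc M) (t := R) (fun d hd => (mem_filter.1 (Finset.mem_coe.1 hd)).2)]
  refine Finset.sum_congr rfl fun f hf => ?_
  unfold len
  congr 1
  ext d
  simp only [mem_filter, mem_univ, true_and]
  exact ⟨fun h => ⟨by rw [h]; exact hf, h⟩, fun h => h.2⟩

/-- region with a short boundary cycle and no interior vertices -/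
theorem no_int (hDE : S_DiscEuler) (hTwo : S_Two) {M : CMap G.Dart V} (hM : PlaneMap M)
    (hconn : G.Connected) (htri : G.CliqueFree 3) {R : Finset (Fc M)} {k : ℕ} {w : ZMod k → V}
    (h4 : 4 ≤ k) (h5 : k ≤ 5) (hw : Bd M R k w) (hin : inV M R = ∅) : R.card = 1 := by
  have hno : ∀ d : G.Dart, fc M d ∈ R → fc M d.symm ∉ R := by
    intro d hd hd'
    have h1 : ∀ e : G.Dart, fc M e ∈ R → ∃ i, w i = e.fst := by
      intro e he
      by_contra hcon
      push Not at hcon
      exact (hTwo V G M hM hconn R k w (by omega) hw).2.2.2 e.fst (by rw [hin]; simp) hcon e rfl he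
    obtain ⟨i, hi⟩ := h1 d hd
    obtain ⟨j, hj⟩ := h1 d.symm hd'
    have hij : G.Adj (w i) (w j) := by
      rw [hi, hj]; exact d.adj
    rcases consec htri h4 h5 hw.2.1 hij with h | h
    · have : d ∈ bd M R := (hw.2.2 d).2 ⟨i, hi.symm, by rw [← h, hj]; rfl⟩
      exact (mem_filter.1 this).2.2 hd'
    · have : d.symm ∈ bd M R := (hw.2.2 d.symm).2 ⟨j, hj.symm, by rw [← h, hi]; rfl⟩
      have h2 := (mem_filter.1 this).2.2
      rw [SimpleGraph.Dart.symm_symm] at h2
      exact h2 hd
  have h1 := hDE V G M hM hconn R k w (by omega) hw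
  have h2 : ∑ f ∈ R, len M f = (bd M R).card := by
    rw [sum_len]
    congr 1
    ext d
    simp only [bd, mem_filter, mem_univ, true_and]
    exact ⟨fun h => ⟨h, hno d h⟩, fun h => h.1⟩
  have h3 : (bd M R).card = k := by
    have : NeZero k := ⟨by omega⟩
    have h4 : bd M R = (univ : Finset (ZMod k)).map
        ⟨fun i => (⟨(w i, w (i + 1)), hw.2.1 i⟩ : G.Dart), fun i j hij => hw.1 (by
          have := congrArg (fun d : G.Dart => d.fst) hij
          exact this)⟩ := by
      ext d
      rw [hw.2.2, mem_map]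
      constructor
      · rintro ⟨i, h1, h2⟩
        exact ⟨i, mem_univ _, by
          apply SimpleGraph.Dart.ext
          exact Prod.ext h1.symm h2.symm⟩
      · rintro ⟨i, -, rfl⟩
        exact ⟨i, rfl, rfl⟩
    rw [h4, card_map, card_univ, ZMod.card]
  rw [hin, card_empty] at h1
  omega

end MinBAux

open MinBAux in
theorem tMinB (hInd : S_Ind) (hIn : S_InFace) (hSB : S_ShortBd) (hDE : S_DiscEuler)
    (hTwo : S_Two) : S_MinB := by
  intro n hext V _ _ G _ M hV hM htri hconn o P hP L g hcex R hoR hR hbd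
  obtain ⟨f₁, hf₁⟩ := hR
  obtain ⟨d₁, hd₁⟩ : ∃ d : G.Dart, fc M d = f₁ := Quotient.exists_rep f₁
  obtain ⟨d₀, hd₀⟩ : ∃ d : G.Dart, fc M d = o := Quotient.exists_rep o
  have hdart : ∀ v, ∃ d : G.Dart, d.fst = v := by
    intro v
    have : Nontrivial V := ⟨⟨d₀.fst, d₀.snd, d₀.adj.ne⟩⟩
    obtain ⟨u, hu⟩ := hconn.preconnected.exists_adj_of_nontrivial v
    exact ⟨⟨(v, u), hu⟩, rfl⟩
  -- the boundary is not empty
  have hbd0 : (bd M R).card ≠ 0 := by
    intro h0
    rw [card_eq_zero] at h0
    have h1 : ∀ d : G.Dart, fc M d ∈ R → fc M d.symm ∈ R := by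
      intro d hd
      by_contra hcon
      have : d ∈ bd M R := mem_filter.2 ⟨mem_univ _, hd, hcon⟩
      rw [h0] at this
      simp at this
    have h2 : ∀ d e : G.Dart, d.fst = e.fst → fc M d ∈ R → fc M e ∈ R := by
      intro d e hde hd
      refine PanD.SameCycle.mem_closed (S := {x : G.Dart | fc M x ∈ R})
        (sameCycle_of_fst hM hde) (fun z hz => ?_) hd
      show fc M (M.σ z) ∈ R
      rw [fc_sigma hM]
      exact h1 z hz
    have h3 : ∀ v, G.Reachable d₁.fst v → ∀ e : G.Dart, e.fst = v → fc M e ∈ R := by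
      intro v hv
      obtain ⟨p⟩ := hv
      have key : ∀ (a b : V) (p : G.Walk a b), (∀ e : G.Dart, e.fst = a → fc M e ∈ R) →
          ∀ e : G.Dart, e.fst = b → fc M e ∈ R := by
        intro a b p
        induction p with
        | nil => exact fun h => h
        | @cons a c b hac p ih =>
          intro h
          refine ih fun e he => ?_
          refine h2 (⟨(a, c), hac⟩ : G.Dart).symm e he.symm (h1 _ (h _ rfl))
      exact key _ _ p (fun e he => h2 d₁ e he.symm (by rw [hd₁]; exact hf₁))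
    exact hoR (by rw [← hd₀]; exact h3 _ (hconn.preconnected _ _) d₀ rfl)
  obtain ⟨k, hk⟩ : ∃ k, (bd M R).card = k := ⟨_, rfl⟩
  rw [hk] at hbd0 hbd
  obtain ⟨hkk, w, hw⟩ := hSB V G M hM htri R k hk hbd0 (by omega)
  by_cases hin : inV M R = ∅
  · exact Or.inl (no_int hDE hTwo hM hconn htri hkk hbd hw hin)
  have hT4 := (hTwo V G M hM hconn R k w (by omega) hw).2.2.2
  have : NeZero k := ⟨by omega⟩
  set W : Finset V := univ.image w with hW
  have hWmem : ∀ v, v ∈ W ↔ ∃ i, w i = v := by
    intro v; rw [hW, mem_image]; simp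
  have hbdw : ∀ i, (⟨(w i, w (i + 1)), hw.2.1 i⟩ : G.Dart) ∈ bd M R :=
    fun i => (hw.2.2 _).2 ⟨i, rfl, rfl⟩
  set Y : Finset V := inV M R ∪ W with hY
  have hYmem : ∀ v, v ∈ Y ↔ v ∈ inV M R ∨ ∃ i, w i = v := by
    intro v; rw [hY, mem_union, hWmem]
  by_cases hYu : Y = univ
  · right
    have hin' : inV M (univ \ R) = ∅ := by
      rw [eq_empty_iff_forall_notMem]
      intro v hv
      have hv1 := (mem_filter.1 hv).2
      have hv2 : v ∈ Y := by rw [hYu]; exact mem_univ _
      rcases (hYmem v).1 hv2 with h | ⟨i, h⟩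
      · obtain ⟨d, hd⟩ := hdart v
        have h3 := hv1 d hd
        rw [mem_sdiff] at h3
        exact h3.2 ((mem_filter.1 h).2 d hd)
      · have h3 := hv1 _ (show (⟨(w i, w (i + 1)), hw.2.1 i⟩ : G.Dart).fst = v from h)
        rw [mem_sdiff] at h3
        exact h3.2 (mem_filter.1 (hbdw i)).2.1
    have hw' : Bd M (univ \ R) k (fun i => w (-i)) := by
      refine ⟨fun i j hij => neg_injective (hw.1 hij), fun i => ?_, fun d => ?_⟩
      · have h3 := hw.2.1 (-(i + 1))
        rw [show -(i + 1) + 1 = -i by ring] at h3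
        exact h3.symm
      · have h3 : d ∈ bd M (univ \ R) ↔ d.symm ∈ bd M R := by
          simp only [bd, mem_filter, mem_univ, true_and, mem_sdiff, not_not,
            SimpleGraph.Dart.symm_symm]
          exact and_comm
        rw [h3, hw.2.2]
        constructor
        · rintro ⟨i, h5, h6⟩
          refine ⟨-(i + 1), ?_, ?_⟩
          · show d.fst = w (- -(i + 1))
            rw [neg_neg]; exact h6
          · show d.snd = w (-(-(i + 1) + 1))
            rw [show -(-(i + 1) + 1) = i by ring]; exact h5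
        · rintro ⟨i, h5, h6⟩
          refine ⟨-(i + 1), h6, ?_⟩
          rw [show -(i + 1) + 1 = -i by ring]
          exact h5
    have h7 := no_int hDE hTwo hM hconn htri hkk hbd hw' hin'
    obtain ⟨x, hx⟩ := card_eq_one.1 h7
    have hox : o ∈ univ \ R := mem_sdiff.2 ⟨mem_univ _, hoR⟩
    rw [hx, mem_singleton] at hox
    rw [hox, ← hx]
    ext f
    simp
  · exfalso
    have hYn : Y.card ≤ n := by
      have : Y.card < Fintype.card V := by
        rw [← card_univ]
        exact card_lt_card ⟨subset_univ _, fun h => hYu (univ_subset_iff.1 h)⟩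
      omega
    have hdis : Disjoint (inV M R) P := by
      rw [Finset.disjoint_left]
      intro v hv hvP
      obtain ⟨d, hd, hdo⟩ := (hP v).1 hvP
      exact hoR (by rw [← hdo]; exact (mem_filter.1 hv).2 d hd)
    have hWin : ∀ v ∈ W, v ∉ inV M R := by
      intro v hv hv'
      obtain ⟨i, rfl⟩ := (hWmem v).1 hv
      have h3 := (mem_filter.1 (hbdw (i - 1))).2.2
      refine h3 ((mem_filter.1 hv').2 _ ?_)
      show w (i - 1 + 1) = w i
      rw [sub_add_cancel]
    obtain ⟨f₀, hf₀, hf₀'⟩ := hcex.ext _ (nonempty_iff_ne_empty.2 hin) hdis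
    obtain ⟨M', hM', hφ⟩ := hInd V G M hM Y
    obtain ⟨f', hlen, hinc⟩ := hIn V G M hM htri Y M' hM' hφ R k w hkk hbd hw hYmem
    obtain ⟨f₂, hf₂, hf₂'⟩ := ext_sub hext htri hYn hM' (o' := f') (by rw [hlen]; exact hbd)
      (P := W) subset_union_right (fun v => by rw [hinc, hWmem]) (L := L) (g := f₀)
      (fun v hv hv' => hcex.seven v (Finset.disjoint_left.1 hdis (by
        rcases mem_union.1 hv with h | h
        · exact h
        · exact absurd h hv')))
      ⟨fun v hv => hf₀'.1 v (mem_compl.2 (hWin v hv)),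
        fun u hu v hv huv => hf₀'.2 u (mem_compl.2 (hWin u hu)) v (mem_compl.2 (hWin v hv)) huv⟩
    refine hcex.not ⟨_, fun v hv => ?_, glue hf₂' hf₀' (fun v hv => ?_) (fun v hv hv' => ?_)
      (fun u v hu hv huv => ?_)⟩
    · show (if v ∈ Y then f₂ v else f₀ v) = g v
      by_cases hvY : v ∈ Y
      · rw [if_pos hvY]
        rcases mem_union.1 hvY with h | h
        · exact absurd hv (Finset.disjoint_left.1 hdis h)
        · rw [hf₂ v h, hf₀ v hv]
      · rw [if_neg hvY, hf₀ v hv]
    · rw [mem_compl]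
      exact fun h => hv (mem_union_left _ h)
    · rw [mem_compl] at hv'
      rcases mem_union.1 hv with h | h
      · exact absurd h hv'
      · exact hf₂ v h
    · rw [mem_compl, not_not] at hu
      have hvin : v ∉ inV M R := fun h => hv (mem_union_left _ h)
      have hvw : ∀ i, w i ≠ v := fun i h => hv (mem_union_right _ ((hWmem v).2 ⟨i, h⟩))
      have h3 := hT4 v hvin hvw (⟨(u, v), huv⟩ : G.Dart).symm rfl
      refine h3 ?_
      rw [← fc_sigma hM]
      exact (mem_filter.1 hu).2 _ (sigma_fst hM _)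

end C7
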