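import Pool.Agent.Lib.MP_86b854_co.Interface

set_option autoImplicit false

/-!
# Minimum degree of a minimal counterexample
-/

namespace C7

open PLM T72 Finset

theorem tMinDeg : S_MinDeg := by
  intro V _ _ G _ L P g hM v hv
  by_contra hlt
  have hdeg : G.degree v ≤ 2 := by omega
  obtain ⟨f, hfP, hfc, hfd⟩ := hM.ext {v} (singleton_nonempty v) (by simpa using hv)
  -- the colours used by the neighbours
  set B : Finset ℕ := (G.neighborFinset v).biUnion f with hB
  have hBc : B.card ≤ 4 := by
    calc B.card ≤ ∑ u ∈ G.neighborFinset v, (f u).card := card_biUnion_le
      _ ≤ ∑ _u ∈ G.neighborFinset v, 2 := by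
          apply sum_le_sum
          intro u hu
          have huv : u ≠ v := by
            rintro rfl
            exact G.loopless.irrefl u (by simpa using hu)
          exact (hfc u (by simpa using huv)).2.le
      _ = (G.neighborFinset v).card * 2 := by rw [sum_const, smul_eq_mul]
      _ ≤ 4 := by
          rw [SimpleGraph.card_neighborFinset_eq_degree]
          omega
  have h7 := hM.seven v hv
  have hsd : 2 ≤ (L v \ B).card := by
    have := le_card_sdiff B (L v)
    omega
  obtain ⟨c, hc, hcc⟩ := exists_subset_card_eq hsd
  refine hM.not ⟨Function.update f v c, ?_, ?_, ?_⟩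
  · intro w hw
    have hwv : w ≠ v := by
      rintro rfl
      exact hv hw
    rw [Function.update_of_ne hwv]
    exact hfP w hw
  · intro w _
    by_cases hwv : w = v
    · subst hwv
      rw [Function.update_self]
      exact ⟨hc.trans sdiff_subset, hcc⟩
    · rw [Function.update_of_ne hwv]
      exact hfc w (by simpa using hwv)
  · have key : ∀ w, G.Adj v w → Disjoint c (f w) := by
      intro w hw
      rw [Finset.disjoint_left]
      intro x hx hxw
      have := hc hx
      rw [mem_sdiff] at this
      exact this.2 (mem_biUnion.2 ⟨w, by simpa using hw, hxw⟩)
    intro u _ w _ huw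
    by_cases hu : u = v
    · subst hu
      have hwu : w ≠ u := huw.ne'
      rw [Function.update_self, Function.update_of_ne hwu]
      exact key w huw
    · by_cases hw : w = v
      · subst hw
        rw [Function.update_self, Function.update_of_ne hu]
        exact (key u huw.symm).symm
      · rw [Function.update_of_ne hu, Function.update_of_ne hw]
        exact hfd u (by simpa using hu) w (by simpa using hw) huw

end C7
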