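import Pool.Agent.Lib.MP_86b854_co.Interface

set_option autoImplicit false

/-!
# MP_86b854_co : `S_MinOuter`
-/

namespace C7

open PLM T72 Finset Equiv

section Aux

variable {V : Type} [Fintype V] [DecidableEq V] {G : SimpleGraph V} [DecidableRel G.Adj]

lemma minOuter_fst {M : CMap G.Dart V} (hM : PlaneMap M) (d : G.Dart) : (M.σ d).fst = d.fst := by
  have h : M.vt (M.σ d) = M.vt d := by
    rw [M.hv]
    exact Perm.sameCycle_apply_left.2 (Perm.SameCycle.refl _ _)
  rw [hM.1, hM.1] at h
  exact h

lemma minOuter_fc_phi (M : CMap G.Dart V) (d : G.Dart) : fc M (M.φ d) = fc M d := by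
  unfold fc
  apply Quotient.sound
  exact Perm.sameCycle_apply_left.2 (Perm.SameCycle.refl _ _)

lemma minOuter_fc_symm {M : CMap G.Dart V} (hM : PlaneMap M) (d : G.Dart) :
    fc M d.symm = fc M (M.σ d) := by
  rw [← minOuter_fc_phi M d.symm, CMap.φ_apply, hM.2.1, SimpleGraph.Dart.symm_symm]

lemma minOuter_walk {P : Finset V} (h : ∀ u v, G.Adj u v → u ∈ P → v ∈ P) :
    ∀ u v, G.Walk u v → u ∈ P → v ∈ P := by
  intro u v p
  induction p with
  | nil => exact fun h => h
  | cons hadj _ ih => exact fun hu => ih (h _ _ hadj hu)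

end Aux

theorem tMinOuter (hSB : S_ShortBd) : S_MinOuter := by
  intro V _ _ G _ M o L P g hMD
  classical
  have hM := hMD.plane
  set R : Finset (Fc M) := univ \ {o} with hR
  have hmemR : ∀ f : Fc M, f ∈ R ↔ f ≠ o := by
    intro f
    simp [R]
  have hbd : ∀ d : G.Dart, d ∈ bd M R ↔ fc M d ≠ o ∧ fc M d.symm = o := by
    intro d
    simp only [bd, mem_filter, mem_univ, true_and, hmemR, not_not]
  have hPc : Pᶜ.Nonempty := by
    by_contra hne
    have hP : P = univ := by
      rw [← compl_eq_empty_iff]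
      exact not_nonempty_iff_eq_empty.1 hne
    apply hMD.cex.not
    refine ⟨g, fun _ _ => rfl, ?_⟩
    have := hMD.proper
    rw [hP] at this
    exact this
  have hin : inV M R = Pᶜ := by
    ext v
    simp only [inV, mem_filter, mem_univ, true_and, mem_compl, hMD.outer, Inc, hmemR]
    constructor
    · rintro h ⟨d, hd, hdo⟩
      exact h d hd hdo
    · intro h d hd hdo
      exact h ⟨d, hd, hdo⟩
  -- the face `o` has a dart
  obtain ⟨d0, hd0⟩ : ∃ d : G.Dart, fc M d = o := Quotient.exists_rep o
  -- the boundary is not empty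
  have hbne : (bd M R).card ≠ 0 := by
    intro h0
    rw [card_eq_zero] at h0
    have hcl : ∀ d : G.Dart, fc M d.symm = o → fc M d = o := by
      intro d hd
      by_contra hne
      have : d ∈ bd M R := (hbd d).2 ⟨hne, hd⟩
      rw [h0] at this
      exact notMem_empty _ this
    have hcl' : ∀ d : G.Dart, fc M d = o → fc M d.symm = o := by
      intro d hd
      apply hcl
      rw [SimpleGraph.Dart.symm_symm]
      exact hd
    have hsig : ∀ d : G.Dart, fc M d = o → fc M (M.σ d) = o := by
      intro d hd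
      rw [← minOuter_fc_symm hM]
      exact hcl' d hd
    have hadj : ∀ u v, G.Adj u v → u ∈ P → v ∈ P := by
      intro u v huv hu
      rw [hMD.outer] at hu ⊢
      obtain ⟨d, hd, hdo⟩ := hu
      let e : G.Dart := ⟨(u, v), huv⟩
      have hsc : M.σ.SameCycle d e := by
        rw [← M.hv, hM.1, hM.1, hd]
      have he : fc M e = o := PanD.SameCycle.mem_closed (S := {x : G.Dart | fc M x = o}) hsc
        (fun x hx => hsig x hx) hdo
      exact ⟨e.symm, rfl, hcl' e he⟩
    have hd0P : d0.fst ∈ P := (hMD.outer _).2 ⟨d0, rfl, hd0⟩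
    obtain ⟨v, hv⟩ := hPc
    rw [mem_compl] at hv
    apply hv
    obtain ⟨p⟩ := hMD.conn.preconnected d0.fst v
    exact minOuter_walk hadj _ _ p hd0P
  -- the darts of `o`
  set O : Finset G.Dart := univ.filter fun d => fc M d = o with hO
  set O1 : Finset G.Dart := univ.filter fun d => fc M d = o ∧ fc M d.symm ≠ o with hO1
  set O2 : Finset G.Dart := univ.filter fun d => fc M d = o ∧ fc M d.symm = o with hO2
  have hlen : len M o = O.card := rfl
  have hsplit : O.card = O1.card + O2.card := by
    rw [← card_union_of_disjoint]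
    · congr 1
      ext d
      simp only [O, O1, O2, mem_filter, mem_union, mem_univ, true_and]
      tauto
    · rw [disjoint_left]
      intro d hd hd'
      exact (mem_filter.1 hd).2.2 (mem_filter.1 hd').2.2
  have hO1c : O1.card = (bd M R).card := by
    refine card_bij' (fun d _ => d.symm) (fun d _ => d.symm) ?_ ?_ ?_ ?_
    · intro d hd
      rw [hbd, SimpleGraph.Dart.symm_symm]
      have := (mem_filter.1 hd).2
      exact ⟨this.2, this.1⟩
    · intro d hd
      have := (hbd d).1 hd
      refine mem_filter.2 ⟨mem_univ _, this.2, ?_⟩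
      rw [SimpleGraph.Dart.symm_symm]
      exact this.1
    · intro d _
      exact SimpleGraph.Dart.symm_symm d
    · intro d _
      exact SimpleGraph.Dart.symm_symm d
  have hle5 := hMD.len_le
  obtain ⟨h4, _⟩ := hSB V G M hM hMD.tri R (bd M R).card rfl hbne (by omega)
  have hO2e : O2 = ∅ := by
    by_contra hne
    obtain ⟨d, hd⟩ := nonempty_iff_ne_empty.2 hne
    have hd' := (mem_filter.1 hd).2
    have hsub : ({d, d.symm} : Finset G.Dart) ⊆ O2 := by
      intro e he
      rw [mem_insert, mem_singleton] at he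
      rcases he with rfl | rfl
      · exact hd
      · refine mem_filter.2 ⟨mem_univ _, hd'.2, ?_⟩
        rw [SimpleGraph.Dart.symm_symm]
        exact hd'.1
    have hc := card_le_card hsub
    rw [card_pair (SimpleGraph.Dart.symm_ne d).symm] at hc
    omega
  have hk : (bd M R).card = len M o := by
    rw [hlen, hsplit, hO2e, card_empty, add_zero, hO1c]
  obtain ⟨h4', w, hw⟩ := hSB V G M hM hMD.tri R (len M o) hk (by omega) (by omega)
  refine ⟨hPc, hin, h4', w, hw, ?_⟩
  intro v
  rw [hMD.outer]
  constructor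
  · rintro ⟨d, hd, hdo⟩
    have hne : fc M d.symm ≠ o := by
      intro h
      have : d ∈ O2 := mem_filter.2 ⟨mem_univ _, hdo, h⟩
      rw [hO2e] at this
      exact notMem_empty _ this
    have hmem : d.symm ∈ bd M R := by
      rw [hbd, SimpleGraph.Dart.symm_symm]
      exact ⟨hne, hdo⟩
    obtain ⟨i, _, hi⟩ := (hw.2.2 d.symm).1 hmem
    exact ⟨i + 1, by rw [← hi, ← hd]; rfl⟩
  · rintro ⟨i, rfl⟩
    let d : G.Dart := ⟨(w (i - 1), w (i - 1 + 1)), hw.2.1 (i - 1)⟩
    have hmem : d ∈ bd M R := (hw.2.2 d).2 ⟨i - 1, rfl, rfl⟩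
    refine ⟨d.symm, ?_, ((hbd d).1 hmem).2⟩
    change w (i - 1 + 1) = w i
    rw [sub_add_cancel]

end C7
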