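import Pool.Agent.Lib.MP_86b854_co.Interface

set_option autoImplicit false

/-!
# MP_86b854_co : a region whose boundary runs inside of a disc is a part of the disc (`S_Nest`)
-/

namespace C7

open PLM T72 Finset Equiv

theorem tNest (h2 : S_Two) : S_Nest := by
  intro V _ _ G _ M hM hconn o R R' k w hk hbd ho ho' hsub
  obtain ⟨_, h, _, _⟩ := h2 V G M hM hconn R k w hk hbd
  have hφ : ∀ x : G.Dart, fc M (M.φ x) = fc M x := fun x =>
    (Quotient.sound (s := Perm.SameCycle.setoid M.φ) ⟨1, by simp⟩ : fc M x = fc M (M.φ x)).symm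
  have hmem : ∀ x : G.Dart, x ∈ bd M R' ↔ fc M x ∈ R' ∧ fc M x.symm ∉ R' := by
    intro x
    unfold bd
    rw [Finset.mem_filter]
    exact ⟨fun h => h.2, fun h => ⟨Finset.mem_univ _, h⟩⟩
  have key := h {d | fc M d ∈ R'} (fun x => by
      show fc M x ∈ R' ↔ fc M (M.φ x) ∈ R'
      rw [hφ]) (fun x hx hx' => by
      show fc M x ∈ R' ↔ fc M x.symm ∈ R'
      constructor
      · intro h3
        by_contra h4
        rcases hsub x ((hmem x).mpr ⟨h3, h4⟩) with h5 | h5
        · exact hx h5
        · exact hx' h5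
      · intro h3
        by_contra h4
        rcases hsub x.symm ((hmem _).mpr ⟨h3, by rwa [SimpleGraph.Dart.symm_symm]⟩) with h5 | h5
        · exact hx' h5
        · rw [SimpleGraph.Dart.symm_symm] at h5
          exact hx h5)
  intro f hf
  by_contra hfR
  obtain ⟨d, hd⟩ := Quotient.exists_rep f
  obtain ⟨e, he⟩ := Quotient.exists_rep o
  have hd' : fc M d = f := hd
  have he' : fc M e = o := he
  have h6 := (key d e (by rw [hd']; exact hfR) (by rw [he']; exact ho)).mp (by
    show fc M d ∈ R'
    rw [hd']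
    exact hf)
  have h7 : fc M e ∈ R' := h6
  rw [he'] at h7
  exact ho' h7

end C7
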