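import Pool.Agent.Lib.MP_86b854_co.Interface

set_option autoImplicit false

/-!
# MP_86b854_co : the length of the boundary of a region
-/

namespace C7

open PLM T72 Finset Equiv

/-- **Parity.** -/
theorem tParity : S_Parity := by
  intro V _ _ G _ M R
  classical
  have h1 : ∑ f ∈ R, len M f = (univ.filter fun d : G.Dart => fc M d ∈ R).card := by
    rw [Finset.card_eq_sum_card_fiberwise (f := fun d : G.Dart => fc M d) (t := R)]
    · refine Finset.sum_congr rfl fun f hf => ?_
      unfold len
      congr 1
      ext d
      simp only [Finset.mem_filter, Finset.mem_univ, true_and]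
      constructor
      · rintro rfl
        exact ⟨hf, rfl⟩
      · exact fun h => h.2
    · intro d hd
      have := (Finset.mem_filter.mp hd).2
      exact this
  have h2 : (univ.filter fun d : G.Dart => fc M d ∈ R).card = (bd M R).card +
      (univ.filter fun d : G.Dart => fc M d ∈ R ∧ fc M d.symm ∈ R).card := by
    have h3 := Finset.card_filter_add_card_filter_not (s := univ.filter fun d : G.Dart => fc M d ∈ R)
      (fun d : G.Dart => fc M d.symm ∈ R)
    rw [Finset.filter_filter, Finset.filter_filter] at h3
    unfold bd
    omega
  have h4 : (((univ.filter fun d : G.Dart => fc M d ∈ R ∧ fc M d.symm ∈ R).card : ℕ) :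
      ZMod 2) = 0 := by
    rw [Finset.card_eq_sum_ones, Nat.cast_sum]
    refine Finset.sum_involution (fun d _ => d.symm) ?_ ?_ ?_ ?_
    · intro d _
      decide
    · intro d _ _
      exact SimpleGraph.Dart.symm_ne d
    · intro d hd
      have h5 := (Finset.mem_filter.mp hd).2
      rw [Finset.mem_filter, SimpleGraph.Dart.symm_symm]
      exact ⟨Finset.mem_univ _, h5.2, h5.1⟩
    · intro d _
      exact SimpleGraph.Dart.symm_symm d
  rw [ZMod.natCast_eq_zero_iff] at h4
  obtain ⟨e, he⟩ := h4
  exact ⟨e, by rw [h1, h2, he]⟩

end C7
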