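import Pool.Agent.Lib.MP_86b854_co.Interface3

set_option autoImplicit false

/-!
# MP_86b854_co : `S_Seven`
-/

namespace C7

open PLM T72 Finset Equiv

theorem tSeven (hV : S_ValN) : S_Seven := by
  intro V _ _ G _ M o L P g hmin R w hbd hoR W hWA hne hbip
  have h := hV V G M o L P g hmin R 7 w (by norm_num) hbd hoR W ∅ hWA hne hbip (empty_subset _)
    (fun u hu => absurd hu (notMem_empty u)) (fun u hu => absurd hu (notMem_empty u))
    (fun u hu => absurd hu (notMem_empty u))
  have h1 : (0 : ℤ) ≤ (chd M R).card := by positivity
  rw [card_empty] at h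
  push_cast at h
  linarith

end C7
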