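import Pool.Agent.Lib.MP_86b854_co.Interface

set_option autoImplicit false

/-!
# MP_86b854_co : `S_ShortBd`. In a triangle-free graph a short boundary is a single cycle.
-/

namespace C7

open PLM T72 Finset Equiv

section Bal

variable {V : Type} [Fintype V] [DecidableEq V] {G : SimpleGraph V} [DecidableRel G.Adj]

/-- balanced sets of darts -/
private def Bal (A : Finset G.Dart) : Prop :=
  ∀ v, (A.filter fun d => d.fst = v).card = (A.filter fun d => d.snd = v).card

private lemma bal_next {A : Finset G.Dart} (hA : Bal A) {d : G.Dart} (hd : d ∈ A) :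
    ∃ e ∈ A, e.fst = d.snd := by
  have h1 : 0 < (A.filter fun e => e.snd = d.snd).card :=
    Finset.card_pos.mpr ⟨d, Finset.mem_filter.mpr ⟨hd, rfl⟩⟩
  rw [← hA] at h1
  obtain ⟨e, he⟩ := Finset.card_pos.mp h1
  exact ⟨e, (Finset.mem_filter.mp he).1, (Finset.mem_filter.mp he).2⟩

private lemma bal_four (hG : G.CliqueFree 3) {A : Finset G.Dart} (hA : Bal A)
    (hs : ∀ d ∈ A, d.symm ∉ A) (hne : A.Nonempty) : 4 ≤ A.card := by
  obtain ⟨d1, h1⟩ := hne
  obtain ⟨d2, h2, h12⟩ := bal_next hA h1
  obtain ⟨d3, h3, h23⟩ := bal_next hA h2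
  obtain ⟨d4, h4, h34⟩ := bal_next hA h3
  have hrev : ∀ d e : G.Dart, d ∈ A → e ∈ A → e.fst = d.snd → e.snd ≠ d.fst := by
    intro d e hd he hde h
    have : e = d.symm := SimpleGraph.Dart.ext _ _ (Prod.ext hde h)
    rw [this] at he
    exact hs d hd he
  have n12 : d1.fst ≠ d2.fst := by rw [h12]; exact d1.adj.ne
  have n23 : d2.fst ≠ d3.fst := by rw [h23]; exact d2.adj.ne
  have n34 : d3.fst ≠ d4.fst := by rw [h34]; exact d3.adj.ne
  have n13 : d3.fst ≠ d1.fst := by rw [h23]; exact hrev d1 d2 h1 h2 h12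
  have n24 : d4.fst ≠ d2.fst := by rw [h34]; exact hrev d2 d3 h2 h3 h23
  have n14 : d4.fst ≠ d1.fst := by
    intro h
    have a1 : G.Adj d1.fst d2.fst := by rw [h12]; exact d1.adj
    have a2 : G.Adj d2.fst d3.fst := by rw [h23]; exact d2.adj
    have a3 : G.Adj d3.fst d1.fst := by rw [← h, h34]; exact d3.adj
    have h5 : G.IsNClique 3 {d1.fst, d2.fst, d3.fst} :=
      SimpleGraph.is3Clique_triple_iff.mpr ⟨a1, a3.symm, a2⟩
    exact hG _ h5
  have hsub : ({d1, d2, d3, d4} : Finset G.Dart) ⊆ A := by
    intro x hx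
    simp only [Finset.mem_insert, Finset.mem_singleton] at hx
    rcases hx with rfl | rfl | rfl | rfl <;> assumption
  have e12 : d1 ≠ d2 := fun h => n12 (by rw [h])
  have e23 : d2 ≠ d3 := fun h => n23 (by rw [h])
  have e34 : d3 ≠ d4 := fun h => n34 (by rw [h])
  have e13 : d1 ≠ d3 := fun h => n13 (by rw [h])
  have e24 : d2 ≠ d4 := fun h => n24 (by rw [h])
  have e14 : d1 ≠ d4 := fun h => n14 (by rw [h])
  have hcard : ({d1, d2, d3, d4} : Finset G.Dart).card = 4 := by
    rw [Finset.card_insert_of_notMem, Finset.card_insert_of_notMem, Finset.card_insert_of_notMem,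
      Finset.card_singleton]
    · simpa using e34
    · simp only [Finset.mem_insert, Finset.mem_singleton, not_or]
      exact ⟨e23, e24⟩
    · simp only [Finset.mem_insert, Finset.mem_singleton, not_or]
      exact ⟨e12, e13, e14⟩
  rw [← hcard]
  exact Finset.card_le_card hsub

private lemma bal_all (hG : G.CliqueFree 3) {A B : Finset G.Dart} (hB : Bal B)
    (hs : ∀ d ∈ B, d.symm ∉ B) (h7 : B.card ≤ 7) (hA : Bal A) (hAB : A ⊆ B) (hne : A.Nonempty) :
    A = B := by
  by_contra hcon
  have h1 : 4 ≤ A.card := bal_four hG hA (fun d hd h => hs d (hAB hd) (hAB h)) hne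
  have h2 : Bal (B \ A) := by
    intro v
    have e1 : ((B \ A).filter fun d => d.fst = v) =
        (B.filter fun d => d.fst = v) \ (A.filter fun d => d.fst = v) := by
      ext x
      simp only [Finset.mem_filter, Finset.mem_sdiff]
      tauto
    have e2 : ((B \ A).filter fun d => d.snd = v) =
        (B.filter fun d => d.snd = v) \ (A.filter fun d => d.snd = v) := by
      ext x
      simp only [Finset.mem_filter, Finset.mem_sdiff]
      tauto
    rw [e1, e2, Finset.card_sdiff_of_subset (Finset.filter_subset_filter _ hAB),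
      Finset.card_sdiff_of_subset (Finset.filter_subset_filter _ hAB), hB v, hA v]
  have h3 : (B \ A).Nonempty := by
    rw [Finset.sdiff_nonempty]
    intro h
    exact hcon (Finset.Subset.antisymm hAB h)
  have h4 : 4 ≤ (B \ A).card := bal_four hG h2
    (fun d hd h => hs d (Finset.mem_sdiff.mp hd).1 (Finset.mem_sdiff.mp h).1) h3
  have h5 := Finset.card_sdiff_add_card_eq_card hAB
  omega

/-- orbits -/
private lemma bal_orbit (N : G.Dart → G.Dart) (B : Finset G.Dart) (hN : ∀ d ∈ B, N d ∈ B)
    (d0 : G.Dart) (h0 : d0 ∈ B) : ∃ y ∈ B, 0 < Function.minimalPeriod N y := by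
  have hit : ∀ n, N^[n] d0 ∈ B := by
    intro n
    induction n with
    | zero => exact h0
    | succ n ih =>
      rw [Function.iterate_succ_apply']
      exact hN _ ih
  obtain ⟨i, j, hij, he⟩ := Finite.exists_ne_map_eq_of_infinite fun n : ℕ => N^[n] d0
  have key : ∀ i j : ℕ, i < j → N^[i] d0 = N^[j] d0 →
      ∃ y ∈ B, 0 < Function.minimalPeriod N y := by
    intro i j hij he
    refine ⟨N^[i] d0, hit i, ?_⟩
    have h1 : Function.IsPeriodicPt N (j - i) (N^[i] d0) := by
      show N^[j - i] (N^[i] d0) = N^[i] d0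
      rw [← Function.iterate_add_apply, Nat.sub_add_cancel hij.le, ← he]
    exact h1.minimalPeriod_pos (by omega)
  rcases lt_or_gt_of_ne hij with h | h
  · exact key i j h he
  · exact key j i h he.symm

end Bal

theorem tShortBd (hC : S_Corner) : S_ShortBd := by
  classical
  intro V _ _ G _ M hM hG R k hk hk0 hk7
  have hB : Bal (bd M R) := fun v => (hC V G M hM R v).1
  have hs : ∀ d ∈ bd M R, d.symm ∉ bd M R := by
    intro d hd hd'
    unfold bd at hd hd'
    rw [Finset.mem_filter] at hd hd'
    exact hd.2.2 hd'.2.1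
  have hne : (bd M R).Nonempty := by
    rw [← Finset.card_pos, hk]
    omega
  have h4 : 4 ≤ k := by
    rw [← hk]
    exact bal_four hG hB hs hne
  refine ⟨h4, ?_⟩
  let N : G.Dart → G.Dart := fun d =>
    if h : ∃ e ∈ bd M R, e.fst = d.snd then h.choose else d
  have hN : ∀ d ∈ bd M R, N d ∈ bd M R ∧ (N d).fst = d.snd := by
    intro d hd
    have h := bal_next hB hd
    have h1 : N d = h.choose := dif_pos h
    rw [h1]
    exact h.choose_spec
  have hN2 : ∀ d ∈ bd M R, ∀ d' ∈ bd M R, (N d).fst = (N d').fst → N d = N d' := by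
    intro d hd d' hd' h
    rw [(hN d hd).2, (hN d' hd').2] at h
    show (if h : ∃ e ∈ bd M R, e.fst = d.snd then h.choose else d) =
      (if h : ∃ e ∈ bd M R, e.fst = d'.snd then h.choose else d')
    have h1 := bal_next hB hd
    have h2 := bal_next hB hd'
    rw [dif_pos h1, dif_pos h2]
    congr 1
    rw [h]
  obtain ⟨d0, hd0⟩ := hne
  obtain ⟨y, hy, hper⟩ := bal_orbit N (bd M R) (fun d hd => (hN d hd).1) d0 hd0
  obtain ⟨m, hm⟩ : ∃ m, m = Function.minimalPeriod N y := ⟨_, rfl⟩
  rw [← hm] at hper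
  have hit : ∀ n, N^[n] y ∈ bd M R := by
    intro n
    induction n with
    | zero => exact hy
    | succ n ih =>
      rw [Function.iterate_succ_apply']
      exact (hN _ ih).1
  have hper2 : N^[m] y = y := by
    rw [hm]
    exact Function.iterate_minimalPeriod
  have hinj : ∀ i j, i < m → j < m → N^[i] y = N^[j] y → i = j := by
    intro i j hi hj h
    rw [hm] at hi hj
    exact Function.iterate_injOn_Iio_minimalPeriod hi hj h
  have hsucc : ∀ i, (N^[i + 1] y).fst = (N^[i] y).snd := by
    intro i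
    rw [Function.iterate_succ_apply']
    exact (hN _ (hit i)).2
  -- darts of the orbit with the same first vertex are equal
  have hfst : ∀ i j, i < m → j < m → (N^[i] y).fst = (N^[j] y).fst → N^[i] y = N^[j] y := by
    have hrep : ∀ i, ∃ z ∈ bd M R, N^[i] y = N z := by
      intro i
      rcases i with _ | i
      · refine ⟨N^[m - 1] y, hit _, ?_⟩
        rw [← Function.iterate_succ_apply' N]
        have : (m - 1).succ = m := by omega
        rw [this, hper2]
        rfl
      · exact ⟨N^[i] y, hit i, Function.iterate_succ_apply' _ _ _⟩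
    intro i j _ _ h
    obtain ⟨z1, hz1, e1⟩ := hrep i
    obtain ⟨z2, hz2, e2⟩ := hrep j
    rw [e1, e2] at h ⊢
    exact hN2 z1 hz1 z2 hz2 h
  let A : Finset G.Dart := (Finset.range m).image fun i => N^[i] y
  have hA : ∀ d, d ∈ A ↔ ∃ i < m, N^[i] y = d := by
    intro d
    show d ∈ (Finset.range m).image (fun i => N^[i] y) ↔ _
    rw [Finset.mem_image]
    simp only [Finset.mem_range]
  have hAB : A ⊆ bd M R := by
    intro d hd
    obtain ⟨i, _, hi⟩ := (hA d).mp hd
    rw [← hi]
    exact hit i
  have hNA : ∀ d ∈ A, N d ∈ A := by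
    intro d hd
    obtain ⟨i, hi, hid⟩ := (hA d).mp hd
    rw [hA]
    by_cases h : i + 1 < m
    · exact ⟨i + 1, h, by rw [Function.iterate_succ_apply', hid]⟩
    · refine ⟨0, hper, ?_⟩
      have h2 : i + 1 = m := by omega
      rw [← hid, ← Function.iterate_succ_apply' N, Nat.succ_eq_add_one, h2, hper2]
      rfl
  have hNinj : ∀ d ∈ A, ∀ d' ∈ A, N d = N d' → d = d' := by
    intro d hd d' hd' h
    obtain ⟨i, hi, hid⟩ := (hA d).mp hd
    obtain ⟨j, hj, hjd⟩ := (hA d').mp hd'
    have h2 : N^[m - 1] (N d) = d := by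
      rw [← hid, ← Function.iterate_succ_apply' N, ← Function.iterate_add_apply]
      have : m - 1 + i.succ = i + m := by omega
      rw [this, Function.iterate_add_apply, hper2]
    have h3 : N^[m - 1] (N d') = d' := by
      rw [← hjd, ← Function.iterate_succ_apply' N, ← Function.iterate_add_apply]
      have : m - 1 + j.succ = j + m := by omega
      rw [this, Function.iterate_add_apply, hper2]
    rw [← h2, ← h3, h]
  have himg : A.image N = A := by
    refine Finset.eq_of_subset_of_card_le ?_ ?_
    · intro d hd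
      obtain ⟨e, he, hed⟩ := Finset.mem_image.mp hd
      rw [← hed]
      exact hNA e he
    · rw [Finset.card_image_of_injOn fun d hd d' hd' h => hNinj d hd d' hd' h]
  have hbalA : Bal A := by
    intro v
    have h1 : (A.filter fun d => d.fst = v) = ((A.filter fun d => d.snd = v).image N) := by
      ext d
      rw [Finset.mem_image]
      constructor
      · intro hd
        rw [Finset.mem_filter] at hd
        obtain ⟨hd1, hd2⟩ := hd
        rw [← himg, Finset.mem_image] at hd1
        obtain ⟨e, he, hed⟩ := hd1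
        refine ⟨e, Finset.mem_filter.mpr ⟨he, ?_⟩, hed⟩
        rw [← (hN e (hAB he)).2, hed, hd2]
      · rintro ⟨e, he, hed⟩
        rw [Finset.mem_filter] at he
        rw [Finset.mem_filter, ← hed]
        exact ⟨hNA e he.1, by rw [(hN e (hAB he.1)).2, he.2]⟩
    rw [h1, Finset.card_image_of_injOn]
    intro d hd d' hd' h
    exact hNinj d (Finset.mem_filter.mp hd).1 d' (Finset.mem_filter.mp hd').1 h
  have hAne : A.Nonempty := ⟨y, (hA y).mpr ⟨0, hper, rfl⟩⟩
  have hAeq : A = bd M R := bal_all hG hB hs (by rw [hk]; exact hk7) hbalA hAB hAne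
  have hmk : m = k := by
    rw [← hk, ← hAeq]
    show m = ((Finset.range m).image fun i => N^[i] y).card
    rw [Finset.card_image_of_injOn, Finset.card_range]
    intro i hi j hj h
    exact hinj i j (Finset.mem_range.mp hi) (Finset.mem_range.mp hj) h
  subst hmk
  have : NeZero m := ⟨by omega⟩
  have h1v : (1 : ZMod m).val = 1 := by
    haveI : Fact (1 < m) := ⟨by omega⟩
    exact ZMod.val_one m
  have hw1 : ∀ i : ZMod m, N^[(i + 1).val] y = N^[i.val + 1] y := by
    intro i
    rw [ZMod.val_add, h1v]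
    by_cases h : i.val + 1 < m
    · rw [Nat.mod_eq_of_lt h]
    · have h2 : i.val + 1 = m := by
        have := ZMod.val_lt i
        omega
      rw [h2, Nat.mod_self, hper2]
      rfl
  refine ⟨fun i => (N^[i.val] y).fst, ?_, ?_, ?_⟩
  · intro i j hij
    have h1 := hfst _ _ (ZMod.val_lt i) (ZMod.val_lt j) hij
    exact ZMod.val_injective m (hinj _ _ (ZMod.val_lt i) (ZMod.val_lt j) h1)
  · intro i
    show G.Adj (N^[i.val] y).fst (N^[(i + 1).val] y).fst
    rw [hw1, hsucc]
    exact (N^[i.val] y).adj
  · intro d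
    constructor
    · intro hd
      rw [← hAeq, hA] at hd
      obtain ⟨i, hi, hid⟩ := hd
      have h1 : ((i : ZMod m)).val = i := ZMod.val_natCast_of_lt hi
      refine ⟨(i : ZMod m), ?_, ?_⟩
      · show d.fst = (N^[((i : ZMod m)).val] y).fst
        rw [h1, hid]
      · show d.snd = (N^[((i : ZMod m) + 1).val] y).fst
        rw [hw1, h1, hsucc, hid]
    · rintro ⟨i, h1, h2⟩
      have h2' : d.snd = (N^[(i + 1).val] y).fst := h2
      rw [hw1, hsucc] at h2'
      have h3 : d = N^[i.val] y := SimpleGraph.Dart.ext _ _ (Prod.ext h1 h2')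
      rw [h3]
      exact hit _

end C7
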