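import Pool.Agent.Lib.MP_86b854_co.D.Bas

set_option autoImplicit false

/-!
# MP_86b854_co : the two sides of a cycle
-/

namespace C7

open PLM T72 Finset Equiv

namespace Two

open Bas

variable {V : Type} [Fintype V] [DecidableEq V] {G : SimpleGraph V} [DecidableRel G.Adj]
  {M : CMap G.Dart V}

/-- the boundary darts and their reverses -/
noncomputable def hB (M : CMap G.Dart V) (R : Finset (Fc M)) : Finset G.Dart :=
  univ.filter fun d => d ∈ bd M R ∨ d.symm ∈ bd M R

theorem mem_hB {R : Finset (Fc M)} {d : G.Dart} : d ∈ hB M R ↔ d ∈ bd M R ∨ d.symm ∈ bd M R := by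
  simp [hB]

theorem symm_hB {R : Finset (Fc M)} {d : G.Dart} (h : d ∈ hB M R) : d.symm ∈ hB M R := by
  rw [mem_hB] at h ⊢
  rw [SimpleGraph.Dart.symm_symm]
  exact h.symm

theorem card_hB (R : Finset (Fc M)) : (hB M R).card = 2 * (bd M R).card := by
  unfold hB
  rw [filter_or, card_union_of_disjoint]
  · have h1 : (univ.filter fun d : G.Dart => d ∈ bd M R) = bd M R := by
      ext d
      simp
    have h2 : (univ.filter fun d : G.Dart => d.symm ∈ bd M R) =
        (bd M R).image SimpleGraph.Dart.symm := by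
      ext d
      simp only [mem_filter, mem_univ, true_and, mem_image]
      constructor
      · intro h
        exact ⟨_, h, SimpleGraph.Dart.symm_symm _⟩
      · rintro ⟨e, h, rfl⟩
        rwa [SimpleGraph.Dart.symm_symm]
    rw [h1, h2, card_image_of_injective _ SimpleGraph.Dart.symm_involutive.injective]
    ring
  · rw [disjoint_filter]
    intro d _ h1 h2
    rw [mem_bd] at h1 h2
    exact h1.2 h2.1

open Classical in
/-- the class of a vertex in the boundary graph -/
noncomputable def q {k : ℕ} (w : ZMod k → V) (v : V) : Option {v : V // ∀ i, w i ≠ v} :=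
  if h : ∀ i, w i ≠ v then some ⟨v, h⟩ else none

theorem q_some {k : ℕ} {w : ZMod k → V} {v : V} (h : ∀ i, w i ≠ v) : q w v = some ⟨v, h⟩ :=
  dif_pos h

theorem q_none {k : ℕ} (w : ZMod k → V) (i : ZMod k) : q w (w i) = none :=
  dif_neg fun h => h i rfl

theorem card_off {k : ℕ} (hk : k ≠ 0) {w : ZMod k → V} (hw : Function.Injective w)
    [Fintype {v : V // ∀ i, w i ≠ v}] :
    Fintype.card {v : V // ∀ i, w i ≠ v} + k = Fintype.card V := by
  have : NeZero k := ⟨hk⟩
  classical
  have h1 := Finset.card_filter_add_card_filter_not (s := (univ : Finset V))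
    (fun v => ∃ i, w i = v)
  have h2 : (univ.filter fun v : V => ∃ i, w i = v) = univ.image w := by
    ext v
    simp
  rw [h2, card_image_of_injective _ hw, card_univ, ZMod.card, card_univ] at h1
  have h3 : Fintype.card {v : V // ∀ i, w i ≠ v} =
      (univ.filter fun v : V => ¬ ∃ i, w i = v).card := by
    rw [Fintype.card_subtype]
    congr 1
    ext v
    simp
  omega

theorem ncmp_hB {R : Finset (Fc M)} {k : ℕ} {w : ZMod k → V} (hk : k ≠ 0) (h : Bd M R k w) :
    ncmp (hB M R) + k = Fintype.card V + 1 := by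
  classical
  have h1 : ncmp (hB M R) = Fintype.card (Option {v : V // ∀ i, w i ≠ v}) := by
    refine card_quot _ (q w) ?_ ?_
    · intro b
      cases b with
      | none => exact ⟨_, q_none w 0⟩
      | some v => exact ⟨v, q_some v.2⟩
    · intro a b
      constructor
      · intro hab
        have h2 := hab {v | q w a = q w v} fun d hd => by
          have h3 : q w d.fst = none ∧ q w d.snd = none := by
            rcases mem_hB.1 hd with h4 | h4
            · obtain ⟨i, h5, h6⟩ := (h.2.2 _).1 h4
              rw [h5, h6]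
              exact ⟨q_none w _, q_none w _⟩
            · obtain ⟨i, h5, h6⟩ := (h.2.2 _).1 h4
              change d.snd = w i at h5
              change d.fst = w (i + 1) at h6
              rw [h5, h6]
              exact ⟨q_none w _, q_none w _⟩
          change q w a = q w d.fst ↔ q w a = q w d.snd
          rw [h3.1, h3.2]
        exact h2.1 rfl
      · intro hab S hS
        by_cases ha : ∀ i, w i ≠ a
        · rw [q_some ha] at hab
          by_cases hb : ∀ i, w i ≠ b
          · rw [q_some hb] at hab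
            have h3 : a = b := by
              have := Option.some.inj hab
              exact congrArg Subtype.val this
            rw [h3]
          · push Not at hb
            obtain ⟨i, rfl⟩ := hb
            rw [q_none] at hab
            exact absurd hab (by simp)
        · push Not at ha
          obtain ⟨i, rfl⟩ := ha
          rw [q_none] at hab
          by_cases hb : ∀ i, w i ≠ b
          · rw [q_some hb] at hab
            exact absurd hab (by simp)
          · push Not at hb
            obtain ⟨j, rfl⟩ := hb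
            exact cyc_iff hk (P := fun i => w i ∈ S)
              (fun i => hS _ (mem_hB.2 (Or.inl (bdart_mem h i)))) i j
  rw [h1, Fintype.card_option]
  have h2 := card_off hk h.1
  omega

theorem cls_iff (h1 : S_EulerSub) (hM : PlaneMap M) (hG : G.Connected) {R : Finset (Fc M)} {k : ℕ}
    {w : ZMod k → V} (hk : k ≠ 0) (h : Bd M R k w) (d e : G.Dart) (hde : fc M d ∈ R ↔ fc M e ∈ R) :
    (clsS M (hB M R)).r d e := by
  have h2 := h1 V G M hM hG ⟨bdart h.2.1 0⟩ (hB M R) fun d hd => symm_hB hd
  rw [card_hB, bd_card hk h] at h2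
  have h3 := ncmp_hB hk h
  have h4 : ncls M (hB M R) = 2 := by omega
  let q : Quotient (clsS M (hB M R)) → Prop := Quotient.lift (fun d => fc M d ∈ R) fun a b hab => by
    have h5 := hab {x | fc M x ∈ R} (fun x => by
      change fc M x ∈ R ↔ fc M (M.φ x) ∈ R
      rw [fc_phi]) fun x hx => by
      change fc M x ∈ R ↔ fc M x.symm ∈ R
      rw [mem_hB, mem_bd, mem_bd, SimpleGraph.Dart.symm_symm] at hx
      tauto
    exact propext h5
  have hq : Function.Surjective q := by
    have h6 := mem_bd.1 (bdart_mem h 0)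
    intro p
    by_cases hp : p
    · exact ⟨Quotient.mk _ (bdart h.2.1 0), propext ⟨fun _ => hp, fun _ => h6.1⟩⟩
    · exact ⟨Quotient.mk _ (bdart h.2.1 0).symm, propext ⟨fun h7 => absurd h7 h6.2, fun h7 => absurd h7 hp⟩⟩
  have hb : Function.Bijective q := by
    refine hq.bijective_of_nat_card_le ?_
    change ncls M (hB M R) ≤ _
    rw [h4]
    simp
  have h7 : (Quotient.mk (clsS M (hB M R)) d) = Quotient.mk _ e := hb.1 (propext hde)
  exact Quotient.exact h7

theorem four (h2 : S_Corner) (hM : PlaneMap M) {R : Finset (Fc M)} {k : ℕ} {w : ZMod k → V}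
    (h : Bd M R k w) (v : V) (hv : v ∉ inV M R) (hw : ∀ i, w i ≠ v) (d : G.Dart)
    (hd : d.fst = v) : fc M d ∉ R := by
  have h3 : ∀ d ∈ bd M R, d.fst ≠ v := by
    intro e he hev
    obtain ⟨i, h4, -⟩ := (h.2.2 _).1 he
    exact hw i (h4.symm.trans hev)
  rw [mem_inV] at hv
  push Not at hv
  obtain ⟨e, h4, h5⟩ := hv
  rw [(h2 V G M hM R v).2 h3 d e hd h4]
  exact h5

end Two

open Bas Two in
/-- **Two.** -/
theorem tTwo (h1 : S_EulerSub) (h2 : S_Corner) : S_Two := by
  intro V _ _ G _ M hM hG R k w hk h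
  have hk0 : k ≠ 0 := by omega
  refine ⟨?_, ?_, ?_, ?_⟩
  · intro S hS1 hS2 d e hd he
    have h3 := cls_iff h1 hM hG hk0 h d e (iff_of_true hd he) {x | fc M x ∈ R ∧ x ∈ S}
      (fun x => by
        change fc M x ∈ R ∧ x ∈ S ↔ fc M (M.φ x) ∈ R ∧ M.φ x ∈ S
        rw [fc_phi, hS1 x]) fun x hx => by
        change fc M x ∈ R ∧ x ∈ S ↔ fc M x.symm ∈ R ∧ x.symm ∈ S
        rw [mem_hB, mem_bd, mem_bd, SimpleGraph.Dart.symm_symm] at hx
        have := hS2 x
        tauto
    exact ⟨fun h4 => (h3.1 ⟨hd, h4⟩).2, fun h4 => (h3.2 ⟨he, h4⟩).2⟩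
  · intro S hS1 hS2 d e hd he
    have h3 := cls_iff h1 hM hG hk0 h d e (iff_of_false hd he) {x | fc M x ∉ R ∧ x ∈ S}
      (fun x => by
        change fc M x ∉ R ∧ x ∈ S ↔ fc M (M.φ x) ∉ R ∧ M.φ x ∈ S
        rw [fc_phi, hS1 x]) fun x hx => by
        change fc M x ∉ R ∧ x ∈ S ↔ fc M x.symm ∉ R ∧ x.symm ∈ S
        rw [mem_hB, mem_bd, mem_bd, SimpleGraph.Dart.symm_symm] at hx
        have := hS2 x
        tauto
    exact ⟨fun h4 => (h3.1 ⟨hd, h4⟩).2, fun h4 => (h3.2 ⟨he, h4⟩).2⟩
  · intro A hA
    have h3 : ∀ i, w i ∈ A ↔ w 0 ∈ A := fun i =>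
      cyc_iff hk0 (P := fun i => w i ∈ A)
        (fun i => hA (bdart h.2.1 i) fun h4 => (mem_bd.1 (bdart_mem h i)).2 h4.2) i 0
    have h4 : ∀ u, u ∉ inV M R → (u ∈ A ↔ w 0 ∈ A) := by
      by_contra hc
      push Not at hc
      obtain ⟨u, hu, hc⟩ := hc
      have h5 : w 0 ∈ {v | v ∉ inV M R ∧ ¬ (v ∈ A ↔ w 0 ∈ A)} := by
        refine conn_closed hG _ ?_ u (w 0) ⟨hu, by tauto⟩
        rintro a b hab ⟨h5, h6⟩
        have h7 : ∀ i, w i ≠ a := by
          rintro i rfl
          exact h6 (h3 i)
        have h8 := four h2 hM h a h5 h7 ⟨(a, b), hab⟩ rfl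
        refine ⟨notin_snd hM h8, ?_⟩
        have h9 := hA ⟨(a, b), hab⟩ fun h10 => h8 h10.1
        change a ∈ A ↔ b ∈ A at h9
        rw [← h9]
        exact h6
      exact h5.2 Iff.rfl
    intro u v hu hv
    rw [h4 u hu, h4 v hv]
  · exact four h2 hM h

end C7
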