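import Pool.Agent.Lib.MP_86b854_co.Interface2

set_option autoImplicit false

/-!
# MP_86b854_co : `S_Val`
-/

namespace C7

open PLM T72 Finset Equiv

section Aux

variable {V : Type} [Fintype V] [DecidableEq V] (G : SimpleGraph V) [DecidableRel G.Adj]

omit [Fintype V] in
lemma val_bt_right {X Y Z : Finset V} (h : Disjoint Y Z) :
    eBt G X (Y ∪ Z) = eBt G X Y + eBt G X Z := by
  unfold eBt
  rw [product_union, filter_union, card_union_of_disjoint]
  refine disjoint_filter_filter ?_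
  rw [disjoint_left] at h ⊢
  intro p hp hp'
  exact h (mem_product.1 hp).2 (mem_product.1 hp').2

omit [Fintype V] in
lemma val_bt_left {X Y Z : Finset V} (h : Disjoint X Y) :
    eBt G (X ∪ Y) Z = eBt G X Z + eBt G Y Z := by
  unfold eBt
  rw [union_product, filter_union, card_union_of_disjoint]
  refine disjoint_filter_filter ?_
  rw [disjoint_left] at h ⊢
  intro p hp hp'
  exact h (mem_product.1 hp).1 (mem_product.1 hp').1

omit [Fintype V] in
lemma val_bt_comm (X Y : Finset V) : eBt G X Y = eBt G Y X := by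
  unfold eBt
  refine card_bij' (fun p _ => (p.2, p.1)) (fun p _ => (p.2, p.1)) ?_ ?_ ?_ ?_
  · intro p hp
    simp only [mem_filter, mem_product] at hp ⊢
    exact ⟨⟨hp.1.2, hp.1.1⟩, hp.2.symm⟩
  · intro p hp
    simp only [mem_filter, mem_product] at hp ⊢
    exact ⟨⟨hp.1.2, hp.1.1⟩, hp.2.symm⟩
  · intro p _
    rfl
  · intro p _
    rfl

omit [Fintype V] in
lemma val_in_bt (X : Finset V) : eIn G X = eBt G X X := rfl

omit [Fintype V] in
lemma val_in_union {X Y : Finset V} (h : Disjoint X Y) :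
    eIn G (X ∪ Y) = eIn G X + eIn G Y + 2 * eBt G X Y := by
  rw [val_in_bt, val_in_bt, val_in_bt, val_bt_left G h, val_bt_right G h, val_bt_right G h,
    val_bt_comm G Y X]
  ring

end Aux

theorem tVal (h5 : S_ThmT5) (hD : S_DiscCount) (hC : S_Cost) : S_Val := by
  intro V _ _ G _ M o L P g hmin R k w hk hbd hoR W U hWA hne hbip hUW hUi hUW2 hUA
  set A : Finset V := inV M R with hA
  have hAP : ∀ v ∈ A, v ∉ P := by
    intro v hv hvP
    obtain ⟨d, hd1, hd2⟩ := (hmin.outer v).1 hvP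
    have h1 : fc M d ∈ R := (mem_filter.1 hv).2 d hd1
    rw [hd2] at h1
    exact hoR h1
  have hWY : Disjoint W Aᶜ := by
    rw [disjoint_left]
    intro v hv hv'
    exact (mem_compl.1 hv') (hWA hv)
  obtain ⟨T, hTW, hTi, hT⟩ := hC V G W Aᶜ U hWY hUW hUi hUW2 (by
    intro u hu v hv huv
    exact (mem_compl.1 hv) (hUA u hu v huv))
  have hScompl : (A \ W)ᶜ = Aᶜ ∪ W := by
    ext v
    simp only [mem_compl, mem_sdiff, mem_union]
    tauto
  have h1 := h5 V G L P g hmin.cex (A \ W) T ∅ hne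
    (by
      rw [disjoint_left]
      intro v hv
      exact hAP v (mem_sdiff.1 hv).1) hbip
    (by
      rw [disjoint_left]
      intro v hv hv'
      exact (mem_sdiff.1 hv).2 (hTW hv'))
    (by
      rw [disjoint_left]
      intro v hv
      exact hAP v (hWA (hTW hv))) hTi (empty_subset _) (by
      intro u hu
      exact absurd hu (notMem_empty _)) (by
      intro u hu
      exact absurd hu (notMem_empty _))
  rw [hScompl, card_empty] at h1
  have h2 := hD V G M hmin.plane hmin.conn R k w hk hbd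
  rw [← hA] at h2
  have hSW : Disjoint (A \ W) W := sdiff_disjoint
  have hAeq : (A \ W) ∪ W = A := sdiff_union_of_subset hWA
  have h3 := val_in_union G hSW
  have h4 := val_bt_left G (Z := Aᶜ) hSW
  rw [hAeq] at h3 h4
  have h6 := val_bt_right G (X := A \ W) hWY.symm
  have h7 : (A \ W).card + W.card = A.card := by
    rw [← card_union_of_disjoint hSW, hAeq]
  have h1' : (9 * ((A \ W).card : ℤ) + ((∑ t ∈ T, (2 - dgI G (Aᶜ ∪ W) t) : ℕ) : ℤ) <
      2 * eIn G (A \ W) + 4 * eBt G (A \ W) (Aᶜ ∪ W)) := by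
    exact_mod_cast (by omega : 9 * (A \ W).card + (∑ t ∈ T, (2 - dgI G (Aᶜ ∪ W) t)) <
      2 * eIn G (A \ W) + 4 * eBt G (A \ W) (Aᶜ ∪ W))
  have hT' : 2 * (W.card : ℤ) + U.card ≤ 2 * eIn G W + eBt G W Aᶜ +
      ((∑ t ∈ T, (2 - dgI G (Aᶜ ∪ W) t) : ℕ) : ℤ) := by
    exact_mod_cast hT
  have h3' : (eIn G A : ℤ) = eIn G (A \ W) + eIn G W + 2 * eBt G (A \ W) W := by
    exact_mod_cast h3
  have h4' : (eBt G A Aᶜ : ℤ) = eBt G (A \ W) Aᶜ + eBt G W Aᶜ := by
    exact_mod_cast h4
  have h6' : (eBt G (A \ W) (Aᶜ ∪ W) : ℤ) = eBt G (A \ W) Aᶜ + eBt G (A \ W) W := by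
    exact_mod_cast h6
  have h7' : ((A \ W).card : ℤ) + W.card = A.card := by
    exact_mod_cast h7
  rw [h3', h4'] at h2
  rw [h6'] at h1'
  linarith

end C7
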