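import Pool.Agent.Lib.MP_86b854_co.Interface3

set_option autoImplicit false

/-!
# MP_86b854_co : `S_ValN`
-/

namespace C7

open PLM T72 Finset Equiv

section Aux2

variable {V : Type} [Fintype V] [DecidableEq V] (G : SimpleGraph V) [DecidableRel G.Adj]

lemma val2_deg (X : Finset V) : eBt G X univ = ∑ v ∈ X, G.degree v := by
  unfold eBt
  rw [card_filter, sum_product]
  refine sum_congr rfl fun v _ => ?_
  rw [← card_filter, ← SimpleGraph.card_neighborFinset_eq_degree]
  congr 1
  ext u
  simp

omit [Fintype V] in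
lemma val2_mono {X X' Y : Finset V} (h : X ⊆ X') : eBt G X Y ≤ eBt G X' Y := by
  unfold eBt
  exact card_le_card (filter_subset_filter _ (product_subset_product_left h))

lemma val2_split (X A : Finset V) : eBt G X univ = eBt G X A + eBt G X Aᶜ := by
  unfold eBt
  rw [← union_compl A, product_union, filter_union, card_union_of_disjoint]
  refine disjoint_filter_filter ?_
  rw [disjoint_left]
  intro p hp hp'
  exact (mem_compl.1 (mem_product.1 hp').2) (mem_product.1 hp).2

end Aux2

theorem tValN (hV : S_Val) (hD : S_DiscCount) (hM : S_MinDeg) : S_ValN := by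
  intro V _ _ G _ M o L P g hmin R k w hk hbd hoR W U hWA hne hbip hUW hUi hUW2 hUA
  by_cases hne' : (inV M R \ W).Nonempty
  · exact hV V G M o L P g hmin R k w hk hbd hoR W U hWA hne' hbip hUW hUi hUW2 hUA
  have hWeq : W = inV M R := by
    refine Subset.antisymm hWA ?_
    rw [not_nonempty_iff_eq_empty, sdiff_eq_empty_iff_subset] at hne'
    exact hne'
  subst hWeq
  set A : Finset V := inV M R with hA
  have hAP : ∀ v ∈ A, v ∉ P := by
    intro v hv hvP
    obtain ⟨d, hd1, hd2⟩ := (hmin.outer v).1 hvP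
    have h1 : fc M d ∈ R := (mem_filter.1 hv).2 d hd1
    rw [hd2] at h1
    exact hoR h1
  have hdeg : ∀ v ∈ A, 3 ≤ G.degree v := fun v hv => hM V G L P g hmin.cex v (hAP v hv)
  have hsum : ∀ X : Finset V, X ⊆ A → 3 * X.card ≤ eBt G X univ := by
    intro X hX
    rw [val2_deg, mul_comm, ← smul_eq_mul, ← sum_const]
    exact sum_le_sum fun v hv => hdeg v (hX hv)
  have h1 := hsum A (Subset.refl _)
  rw [val2_split G A A] at h1
  have h2 := hsum U hUW
  rw [val2_split G U A] at h2
  have h3 : eBt G U Aᶜ = 0 := by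
    unfold eBt
    rw [card_eq_zero, filter_eq_empty_iff]
    intro p hp hadj
    rw [mem_product] at hp
    exact (mem_compl.1 hp.2) (hUA _ hp.1 _ hadj)
  have h4 := val2_mono G (Y := A) hUW
  have h5 : eBt G A A = eIn G A := rfl
  have h6 := hD V G M hmin.plane hmin.conn R k w hk hbd
  rw [← hA] at h6
  have h7 : 0 < A.card := card_pos.2 hne
  have h8 : 3 * (A.card : ℤ) ≤ eIn G A + eBt G A Aᶜ := by
    rw [← h5]
    exact_mod_cast h1
  have h9 : 3 * (U.card : ℤ) ≤ eIn G A := by
    rw [← h5]
    exact_mod_cast (by omega : 3 * U.card ≤ eBt G A A)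
  have h10 : (0 : ℤ) < A.card := by exact_mod_cast h7
  have h11 : (0 : ℤ) ≤ U.card := by positivity
  linarith

end C7
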