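import Pool.Agent.Lib.MP_86b854_co.Interface3

set_option autoImplicit false

/-!
# MP_86b854_co : `S_ValO`
-/

namespace C7

open PLM T72 Finset Equiv

theorem tValO (hV : S_ValN) (hO : S_MinOuter) : S_ValO := by
  intro V _ _ G _ M o L P g hmin W hW hbip
  obtain ⟨h1, h2, h3, w, h4, -⟩ := hO V G M o L P g hmin
  have h := hV V G M o L P g hmin (univ \ {o}) (len M o) w (by omega) h4 (by simp) W ∅
    (by rw [h2]; exact hW) (by rw [h2]; exact h1) (by rw [h2]; exact hbip) (empty_subset _)
    (fun u hu => absurd hu (notMem_empty u)) (fun u hu => absurd hu (notMem_empty u))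
    (fun u hu => absurd hu (notMem_empty u))
  have h5 : (0 : ℤ) ≤ (chd M (univ \ {o})).card := by positivity
  rw [card_empty, h2, compl_compl] at h
  push_cast at h
  linarith

end C7
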